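import Mathlib
import Pool.Agent.L5helper80.MZ.Ana
import Pool.Agent.L5helper5.SP.Count

/-!
# Hoffman words: the blocks of Thue and Morse, the first term of a nested sum
-/

set_option autoImplicit false

namespace Pool.Agent.L5helper45.HW

/-- the pairs of blocks `(X_i, Y_i)`: `X_0 = 2 3`, `Y_0 = 3 2`, `X_{i + 1} = X_i Y_i`, `Y_{i + 1} = Y_i X_i` -/
def XY : ℕ → List ℕ × List ℕ
  | 0 => ([2, 3], [3, 2])
  | i + 1 => ((XY i).1 ++ (XY i).2, (XY i).2 ++ (XY i).1)

/-- the product of `(j + t) ^ (- p_t)`, where `t = 1, 2, ...` is the place of the letter `p_t`, counted from the end of `p` -/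
noncomputable def Mn : List ℕ → ℕ → ℝ
  | [], _ => 1
  | (a :: p), j => (((j + p.length + 1 : ℕ) : ℝ) ^ a)⁻¹ * Mn p j

/-- the block of `w` at `j` is `X` or `Y` -/
def Hit (X Y w : List ℕ) (j : ℕ) : Prop := (w.drop j).take X.length = X ∨ (w.drop j).take X.length = Y

end Pool.Agent.L5helper45.HW
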