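import Mathlib
import Pool.Agent.L5helper45.HW.Base

/-!
# Hoffman words: the algebra of the summation operators

`S` is summation, `θ` is multiplication by `1 / (n + 1)`. Since `S θ - θ S = θ (S ^ 2 + S) θ`, every commutator gains a factor
`θ`; so the operator of the block `X_i` minus the one of `Y_i`, an iterated commutator, is small compared with both.
-/

set_option autoImplicit false

namespace Pool.Agent.L5helper45.HW

open Pool.Agent.L5helper80.MZ (U U_nil U_cons)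

/-- summation -/
noncomputable def Sop : Module.End ℝ (ℕ → ℝ) where
  toFun f n := ∑ m ∈ Finset.range n, f m
  map_add' f g := by funext n; simp [Finset.sum_add_distrib]
  map_smul' c f := by funext n; simp [Finset.mul_sum]

/-- multiplication by `1 / (n + 1)` -/
noncomputable def Th : Module.End ℝ (ℕ → ℝ) where
  toFun f n := ((n : ℝ) + 1)⁻¹ * f n
  map_add' f g := by funext n; simp [mul_add]
  map_smul' c f := by funext n; simp; ring

lemma Sop_apply (f : ℕ → ℝ) (n : ℕ) : Sop f n = ∑ m ∈ Finset.range n, f m := rfl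

lemma Th_apply (f : ℕ → ℝ) (n : ℕ) : Th f n = ((n : ℝ) + 1)⁻¹ * f n := rfl

lemma SS (g : ℕ → ℝ) (n : ℕ) : Sop (Sop g) n + Sop g n = ∑ m ∈ Finset.range n, ((n : ℝ) - m) * g m := by
  induction n with
  | zero => simp [Sop_apply]
  | succ n ih =>
    have h1 : Sop (Sop g) (n + 1) = Sop (Sop g) n + Sop g n := by
      rw [Sop_apply (Sop g), Finset.sum_range_succ, ← Sop_apply (Sop g)]
    have h2 : Sop g (n + 1) = Sop g n + g n := by rw [Sop_apply, Finset.sum_range_succ, ← Sop_apply]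
    rw [h1, h2, Finset.sum_range_succ, ih]
    have h3 : ∑ m ∈ Finset.range n, (((n + 1 : ℕ) : ℝ) - m) * g m =
        ∑ m ∈ Finset.range n, ((n : ℝ) - m) * g m + ∑ m ∈ Finset.range n, g m := by
      rw [← Finset.sum_add_distrib]
      refine Finset.sum_congr rfl fun m _ => ?_
      push_cast
      ring
    rw [h3, ← Sop_apply g]
    push_cast
    ring

/-- the commutator -/
lemma comm_ST : Sop * Th - Th * Sop = Th * (Sop * Sop) * Th + Th * Sop * Th := by
  refine LinearMap.ext fun f => ?_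
  funext n
  have hn : ((n : ℝ) + 1) ≠ 0 := by positivity
  have h1 := SS (Th f) n
  have e1 : (Sop * Th - Th * Sop) f n = Sop (Th f) n - ((n : ℝ) + 1)⁻¹ * Sop f n := rfl
  have e2 : (Th * (Sop * Sop) * Th + Th * Sop * Th) f n =
      ((n : ℝ) + 1)⁻¹ * Sop (Sop (Th f)) n + ((n : ℝ) + 1)⁻¹ * Sop (Th f) n := rfl
  rw [e1, e2, ← mul_add, h1, Sop_apply, Sop_apply, Finset.mul_sum, Finset.mul_sum, ← Finset.sum_sub_distrib]
  refine Finset.sum_congr rfl fun m _ => ?_
  rw [Th_apply]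
  have hm : ((m : ℝ) + 1) ≠ 0 := by positivity
  field_simp
  ring

/-- operators with at least `w` factors `θ` and at least `s` factors `S` in every term -/
inductive Gd : ℕ → ℕ → Module.End ℝ (ℕ → ℝ) → Prop
  | one : Gd 0 0 1
  | th : Gd 1 0 Th
  | sm : Gd 0 1 Sop
  | mul {w s w' s' : ℕ} {A B : Module.End ℝ (ℕ → ℝ)} : Gd w s A → Gd w' s' B → Gd (w + w') (s + s') (A * B)
  | add {w s : ℕ} {A B : Module.End ℝ (ℕ → ℝ)} : Gd w s A → Gd w s B → Gd w s (A + B)
  | smul {w s : ℕ} {A : Module.End ℝ (ℕ → ℝ)} (c : ℝ) : Gd w s A → Gd w s (c • A)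
  | weak {w s : ℕ} {A : Module.End ℝ (ℕ → ℝ)} : Gd w (s + 2) A → Gd w (s + 1) A

lemma Gd.cast {w s w' s' : ℕ} {A : Module.End ℝ (ℕ → ℝ)} (h : Gd w s A) (hw : w = w') (hs : s = s') : Gd w' s' A := by
  subst hw; subst hs; exact h

lemma Gd.sub {w s : ℕ} {A B : Module.End ℝ (ℕ → ℝ)} (hA : Gd w s A) (hB : Gd w s B) : Gd w s (A - B) := by
  have := hA.add (hB.smul (-1))
  have e : A + (-1 : ℝ) • B = A - B := by
    refine LinearMap.ext fun f => ?_
    funext n
    change A f n + (-1) * B f n = A f n - B f n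
    ring
  rwa [e] at this

lemma Gd.zero (w s : ℕ) : Gd w s 0 := by
  have h1 : ∀ w : ℕ, ∃ A, Gd w 0 A := fun w => by
    induction w with
    | zero => exact ⟨1, Gd.one⟩
    | succ w ih => obtain ⟨A, hA⟩ := ih; exact ⟨_, (hA.mul Gd.th).cast rfl rfl⟩
  have h2 : ∃ A, Gd w s A := by
    induction s with
    | zero => exact h1 w
    | succ s ih => obtain ⟨A, hA⟩ := ih; exact ⟨_, (hA.mul Gd.sm).cast rfl rfl⟩
  obtain ⟨A, hA⟩ := h2
  have := hA.smul 0
  rwa [zero_smul] at this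

lemma comm_th : Gd 2 1 (Sop * Th - Th * Sop) := by
  rw [comm_ST]
  refine Gd.add ?_ ?_
  · exact Gd.weak (s := 0) (((Gd.th.mul (Gd.sm.mul Gd.sm)).mul Gd.th).cast rfl rfl)
  · exact ((Gd.th.mul Gd.sm).mul Gd.th).cast rfl rfl

/-- a commutator with a generator -/
lemma comm_gen {w s : ℕ} {A : Module.End ℝ (ℕ → ℝ)} (hA : Gd w s A) :
    Gd (w + 2) s (A * Th - Th * A) ∧ Gd (w + 1) (s + 1) (A * Sop - Sop * A) := by
  induction hA with
  | one => simp only [one_mul, mul_one, sub_self]; exact ⟨Gd.zero _ _, Gd.zero _ _⟩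
  | th =>
    refine ⟨by rw [sub_self]; exact Gd.zero _ _, ?_⟩
    have := comm_th.smul (-1)
    have e : (-1 : ℝ) • (Sop * Th - Th * Sop) = Th * Sop - Sop * Th := by
      refine LinearMap.ext fun f => ?_
      funext n
      change (-1) * (Sop (Th f) n - Th (Sop f) n) = Th (Sop f) n - Sop (Th f) n
      ring
    rw [e] at this
    exact this
  | sm =>
    refine ⟨comm_th, by rw [sub_self]; exact Gd.zero _ _⟩
  | @mul w s w' s' A B hA hB ihA ihB =>
    refine ⟨?_, ?_⟩
    · have e : A * B * Th - Th * (A * B) = A * (B * Th - Th * B) + (A * Th - Th * A) * B := by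
        simp only [mul_sub, sub_mul, mul_assoc]; abel
      rw [e]
      exact ((hA.mul ihB.1).cast (by omega) rfl).add ((ihA.1.mul hB).cast (by omega) rfl)
    · have e : A * B * Sop - Sop * (A * B) = A * (B * Sop - Sop * B) + (A * Sop - Sop * A) * B := by
        simp only [mul_sub, sub_mul, mul_assoc]; abel
      rw [e]
      exact ((hA.mul ihB.2).cast (by omega) (by omega)).add ((ihA.2.mul hB).cast (by omega) (by omega))
  | @add w s A B hA hB ihA ihB =>
    refine ⟨?_, ?_⟩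
    · have e : (A + B) * Th - Th * (A + B) = (A * Th - Th * A) + (B * Th - Th * B) := by noncomm_ring
      rw [e]
      exact ihA.1.add ihB.1
    · have e : (A + B) * Sop - Sop * (A + B) = (A * Sop - Sop * A) + (B * Sop - Sop * B) := by noncomm_ring
      rw [e]
      exact ihA.2.add ihB.2
  | @smul w s A c hA ihA =>
    refine ⟨?_, ?_⟩
    · have e : (c • A) * Th - Th * (c • A) = c • (A * Th - Th * A) := by
        rw [smul_mul_assoc, mul_smul_comm, smul_sub]
      rw [e]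
      exact ihA.1.smul c
    · have e : (c • A) * Sop - Sop * (c • A) = c • (A * Sop - Sop * A) := by
        rw [smul_mul_assoc, mul_smul_comm, smul_sub]
      rw [e]
      exact ihA.2.smul c
  | @weak w s A hA ihA => exact ⟨ihA.1.weak, ihA.2.weak⟩

/-- **every commutator gains a factor `θ`** -/
lemma comm {w s w' s' : ℕ} {A B : Module.End ℝ (ℕ → ℝ)} (hA : Gd w s A) (hB : Gd w' s' B) :
    Gd (w + w' + 1) (s + s') (A * B - B * A) := by
  induction hB with
  | one => simp only [one_mul, mul_one, sub_self]; exact Gd.zero _ _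
  | th => exact (comm_gen hA).1.cast (by omega) (by omega)
  | sm => exact (comm_gen hA).2.cast (by omega) (by omega)
  | @mul w1 s1 w2 s2 B C hB hC ihB ihC =>
    have e : A * (B * C) - B * C * A = (A * B - B * A) * C + B * (A * C - C * A) := by
      simp only [mul_sub, sub_mul, mul_assoc]; abel
    rw [e]
    exact ((ihB.mul hC).cast (by omega) (by omega)).add ((hB.mul ihC).cast (by omega) (by omega))
  | @add w1 s1 B C hB hC ihB ihC =>
    have e : A * (B + C) - (B + C) * A = (A * B - B * A) + (A * C - C * A) := by noncomm_ring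
    rw [e]
    exact ihB.add ihC
  | @smul w1 s1 B c hB ihB =>
    have e : A * (c • B) - (c • B) * A = c • (A * B - B * A) := by
      rw [smul_mul_assoc, mul_smul_comm, smul_sub]
    rw [e]
    exact ihB.smul c
  | @weak w1 s1 B hB ihB =>
    exact (Gd.weak (s := s + s1) (ihB.cast rfl (by omega))).cast rfl (by omega)

/-- the estimate -/
def Bdd (w s : ℕ) (T : Module.End ℝ (ℕ → ℝ)) : Prop :=
  ∃ (C : ℝ) (E : ℕ), 0 ≤ C ∧ ∀ (j : ℕ) (f g : ℕ → ℝ), (∀ n, |f n| ≤ g n) → (∀ n < j, g n = 0) → ∀ n,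
    |T f n| * ((j : ℝ) + 1) ^ w ≤ C * (1 + (n - (j + s) : ℕ) : ℝ) ^ E * (Sop ^ s) g n

lemma Sop_nonneg {g : ℕ → ℝ} (hg : ∀ n, 0 ≤ g n) (s : ℕ) : ∀ n, 0 ≤ (Sop ^ s) g n := by
  induction s with
  | zero => intro n; simpa using hg n
  | succ s ih =>
    intro n
    rw [pow_succ', Module.End.mul_apply, Sop_apply]
    exact Finset.sum_nonneg fun m _ => ih m

lemma Sop_supp {g : ℕ → ℝ} {j : ℕ} (hg : ∀ n < j, g n = 0) (s : ℕ) : ∀ n < j + s, (Sop ^ s) g n = 0 := by
  induction s with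
  | zero => intro n hn; simpa using hg n (by omega)
  | succ s ih =>
    intro n hn
    rw [pow_succ', Module.End.mul_apply, Sop_apply]
    refine Finset.sum_eq_zero fun m hm => ?_
    rw [Finset.mem_range] at hm
    exact ih m (by omega)

lemma Sop_le {f g : ℕ → ℝ} (s : ℕ) : ∀ n, (∀ m, m + s ≤ n → f m ≤ g m) → (Sop ^ s) f n ≤ (Sop ^ s) g n := by
  induction s with
  | zero => intro n h; simpa using h n (by omega)
  | succ s ih =>
    intro n h
    rw [pow_succ', Module.End.mul_apply, Module.End.mul_apply, Sop_apply, Sop_apply]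
    refine Finset.sum_le_sum fun m hm => ?_
    rw [Finset.mem_range] at hm
    exact ih m fun m' hm' => h m' (by omega)

lemma Bdd_mul {w s w' s' : ℕ} {A B : Module.End ℝ (ℕ → ℝ)} (hA : Bdd w s A) (hB : Bdd w' s' B) :
    Bdd (w + w') (s + s') (A * B) := by
  obtain ⟨C, E, hC, hA⟩ := hA
  obtain ⟨C', E', hC', hB⟩ := hB
  refine ⟨C * C', E + E', by positivity, fun j f g hfg hg n => ?_⟩
  have hg0 : ∀ n, 0 ≤ g n := fun n => (abs_nonneg _).trans (hfg n)
  have hj : (0 : ℝ) < (j : ℝ) + 1 := by positivity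
  set g' : ℕ → ℝ := fun n => C' * (1 + (n - (j + s') : ℕ) : ℝ) ^ E' * (Sop ^ s') g n / ((j : ℝ) + 1) ^ w' with hg'
  have h1 : ∀ n, |B f n| ≤ g' n := fun n => by
    rw [hg', le_div_iff₀ (by positivity)]
    exact hB j f g hfg hg n
  have h2 : ∀ n < j + s', g' n = 0 := fun n hn => by
    rw [hg']
    simp only
    rw [Sop_supp hg s' n hn, mul_zero, zero_div]
  have h3 := hA (j + s') (B f) g' h1 h2 n
  rw [Module.End.mul_apply]
  -- the factor is monotone
  have h4 : (Sop ^ s) g' n ≤ (Sop ^ s) ((C' * (1 + (n - (j + s' + s) : ℕ) : ℝ) ^ E' / ((j : ℝ) + 1) ^ w') • ((Sop ^ s') g)) n := by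
    refine Sop_le s n fun m hm => ?_
    rw [hg']
    simp only [Pi.smul_apply, smul_eq_mul]
    have h5 : (1 + (m - (j + s') : ℕ) : ℝ) ≤ (1 + (n - (j + s' + s) : ℕ) : ℝ) := by
      have : m - (j + s') ≤ n - (j + s' + s) := by omega
      have : ((m - (j + s') : ℕ) : ℝ) ≤ ((n - (j + s' + s) : ℕ) : ℝ) := by exact_mod_cast this
      linarith
    have h6 := Sop_nonneg hg0 s' m
    have h7 : (1 + (m - (j + s') : ℕ) : ℝ) ^ E' ≤ (1 + (n - (j + s' + s) : ℕ) : ℝ) ^ E' :=
      pow_le_pow_left₀ (by positivity) h5 _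
    have h8 : C' * (1 + (m - (j + s') : ℕ) : ℝ) ^ E' * (Sop ^ s') g m ≤
        C' * (1 + (n - (j + s' + s) : ℕ) : ℝ) ^ E' * (Sop ^ s') g m :=
      mul_le_mul_of_nonneg_right (mul_le_mul_of_nonneg_left h7 hC') h6
    calc C' * (1 + (m - (j + s') : ℕ) : ℝ) ^ E' * (Sop ^ s') g m / ((j : ℝ) + 1) ^ w'
        ≤ C' * (1 + (n - (j + s' + s) : ℕ) : ℝ) ^ E' * (Sop ^ s') g m / ((j : ℝ) + 1) ^ w' :=
          div_le_div_of_nonneg_right h8 (by positivity)
      _ = _ := by ring
  rw [map_smul, Pi.smul_apply, smul_eq_mul, ← Module.End.mul_apply, ← pow_add] at h4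
  have h9 : ((j : ℝ) + 1) ^ w ≤ (((j + s' : ℕ) : ℝ) + 1) ^ w := by
    refine pow_le_pow_left₀ hj.le ?_ _
    push_cast
    have : (0 : ℝ) ≤ s' := Nat.cast_nonneg _
    linarith
  have h10 := mul_le_mul_of_nonneg_left h9 (abs_nonneg (A (B f) n))
  have hn : ((n - (j + s' + s) : ℕ) : ℝ) = ((n - (j + (s + s')) : ℕ) : ℝ) := by
    congr 1
    omega
  calc |A (B f) n| * ((j : ℝ) + 1) ^ (w + w') = |A (B f) n| * ((j : ℝ) + 1) ^ w * ((j : ℝ) + 1) ^ w' := by ring
    _ ≤ (C * (1 + (n - (j + s' + s) : ℕ) : ℝ) ^ E * (Sop ^ s) g' n) * ((j : ℝ) + 1) ^ w' :=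
        mul_le_mul_of_nonneg_right (h10.trans h3) (by positivity)
    _ ≤ (C * (1 + (n - (j + s' + s) : ℕ) : ℝ) ^ E *
          (C' * (1 + (n - (j + s' + s) : ℕ) : ℝ) ^ E' / ((j : ℝ) + 1) ^ w' * (Sop ^ (s + s')) g n)) * ((j : ℝ) + 1) ^ w' := by
        refine mul_le_mul_of_nonneg_right ?_ (by positivity)
        exact mul_le_mul_of_nonneg_left h4 (by positivity)
    _ = C * C' * (1 + (n - (j + (s + s')) : ℕ) : ℝ) ^ (E + E') * (Sop ^ (s + s')) g n := by
        rw [hn, pow_add (1 + ((n - (j + (s + s')) : ℕ) : ℝ)) E E']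
        field_simp

lemma Bdd_of_Gd {w s : ℕ} {T : Module.End ℝ (ℕ → ℝ)} (h : Gd w s T) : Bdd w s T := by
  induction h with
  | one =>
    refine ⟨1, 0, zero_le_one, fun j f g hfg hg n => ?_⟩
    simpa using hfg n
  | th =>
    refine ⟨1, 0, zero_le_one, fun j f g hfg hg n => ?_⟩
    rw [Th_apply, pow_zero, mul_one, pow_zero, one_mul, Module.End.one_apply, pow_one]
    rcases Nat.lt_or_ge n j with h1 | h1
    · have h2 := hfg n
      rw [hg n h1] at h2
      have h3 : f n = 0 := abs_eq_zero.1 (le_antisymm h2 (abs_nonneg _))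
      rw [h3, hg n h1]
      simp
    · rw [abs_mul, abs_of_pos (by positivity : (0 : ℝ) < ((n : ℝ) + 1)⁻¹), mul_right_comm]
      have h2 : ((n : ℝ) + 1)⁻¹ * ((j : ℝ) + 1) ≤ 1 := by
        rw [inv_mul_le_iff₀ (by positivity), mul_one]
        have : (j : ℝ) ≤ n := by exact_mod_cast h1
        linarith
      calc ((n : ℝ) + 1)⁻¹ * ((j : ℝ) + 1) * |f n| ≤ 1 * |f n| := mul_le_mul_of_nonneg_right h2 (abs_nonneg _)
        _ ≤ g n := by rw [one_mul]; exact hfg n
  | sm =>
    refine ⟨1, 0, zero_le_one, fun j f g hfg hg n => ?_⟩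
    rw [pow_zero, mul_one, pow_zero, one_mul, one_mul, pow_one, Sop_apply, Sop_apply]
    exact (Finset.abs_sum_le_sum_abs _ _).trans (Finset.sum_le_sum fun m _ => hfg m)
  | mul hA hB ihA ihB => exact Bdd_mul ihA ihB
  | @add w s A B hA hB ihA ihB =>
    obtain ⟨C, E, hC, hA⟩ := ihA
    obtain ⟨C', E', hC', hB⟩ := ihB
    refine ⟨C + C', E + E', by positivity, fun j f g hfg hg n => ?_⟩
    have h1 := hA j f g hfg hg n
    have h2 := hB j f g hfg hg n
    have hg0 : ∀ n, 0 ≤ g n := fun n => (abs_nonneg _).trans (hfg n)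
    have h3 := Sop_nonneg hg0 s n
    set x : ℝ := (1 + (n - (j + s) : ℕ) : ℝ) with hx
    have hx1 : 1 ≤ x := by
      have : (0 : ℝ) ≤ ((n - (j + s) : ℕ) : ℝ) := Nat.cast_nonneg _
      rw [hx]
      linarith
    have h4 : x ^ E ≤ x ^ (E + E') := pow_le_pow_right₀ hx1 (by omega)
    have h5 : x ^ E' ≤ x ^ (E + E') := pow_le_pow_right₀ hx1 (by omega)
    have h6 : |(A + B) f n| ≤ |A f n| + |B f n| := by
      rw [LinearMap.add_apply, Pi.add_apply]
      exact abs_add_le _ _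
    have hj : (0 : ℝ) < ((j : ℝ) + 1) ^ w := by positivity
    calc |(A + B) f n| * ((j : ℝ) + 1) ^ w ≤ |A f n| * ((j : ℝ) + 1) ^ w + |B f n| * ((j : ℝ) + 1) ^ w := by
          rw [← add_mul]
          exact mul_le_mul_of_nonneg_right h6 hj.le
      _ ≤ C * x ^ E * (Sop ^ s) g n + C' * x ^ E' * (Sop ^ s) g n := add_le_add h1 h2
      _ ≤ C * x ^ (E + E') * (Sop ^ s) g n + C' * x ^ (E + E') * (Sop ^ s) g n := by
          gcongr
      _ = _ := by ring
  | @smul w s A c hA ihA =>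
    obtain ⟨C, E, hC, hA⟩ := ihA
    refine ⟨|c| * C, E, by positivity, fun j f g hfg hg n => ?_⟩
    have h1 := hA j f g hfg hg n
    rw [LinearMap.smul_apply, Pi.smul_apply, smul_eq_mul, abs_mul]
    have := mul_le_mul_of_nonneg_left h1 (abs_nonneg c)
    calc |c| * |A f n| * ((j : ℝ) + 1) ^ w = |c| * (|A f n| * ((j : ℝ) + 1) ^ w) := by ring
      _ ≤ _ := this
      _ = _ := by ring
  | @weak w s A hA ihA =>
    obtain ⟨C, E, hC, hA⟩ := ihA
    refine ⟨C, E + 1, hC, fun j f g hfg hg n => ?_⟩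
    have h1 := hA j f g hfg hg n
    have hg0 : ∀ n, 0 ≤ g n := fun n => (abs_nonneg _).trans (hfg n)
    have h3 := Sop_nonneg hg0 (s + 1)
    refine h1.trans ?_
    have h4 : (Sop ^ (s + 2)) g n ≤ ((n - (j + (s + 1)) : ℕ) : ℝ) * (Sop ^ (s + 1)) g n := by
      rw [show s + 2 = (s + 1) + 1 from rfl, pow_succ' Sop (s + 1), Module.End.mul_apply, Sop_apply]
      have hmono : ∀ m, m ≤ n → (Sop ^ (s + 1)) g m ≤ (Sop ^ (s + 1)) g n := by
        intro m hm
        rw [pow_succ', Module.End.mul_apply, Sop_apply, Sop_apply]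
        refine Finset.sum_le_sum_of_subset_of_nonneg (fun x hx => ?_) fun x _ _ => Sop_nonneg hg0 s x
        rw [Finset.mem_range] at hx ⊢
        omega
      have e : ∑ m ∈ Finset.range n, (Sop ^ (s + 1)) g m = ∑ m ∈ Finset.Ico (j + (s + 1)) n, (Sop ^ (s + 1)) g m := by
        rw [Finset.range_eq_Ico]
        refine (Finset.sum_subset (fun x hx => ?_) fun x hx hx' => ?_).symm
        · rw [Finset.mem_Ico] at hx ⊢
          omega
        · rw [Finset.mem_Ico] at hx hx'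
          exact Sop_supp hg (s + 1) x (by omega)
      rw [e]
      refine (Finset.sum_le_card_nsmul _ _ ((Sop ^ (s + 1)) g n) fun m hm => ?_).trans (le_of_eq ?_)
      · rw [Finset.mem_Ico] at hm
        exact hmono m (by omega)
      · rw [Nat.card_Ico, nsmul_eq_mul]
    have h5 : (n - (j + (s + 2)) : ℕ) ≤ (n - (j + (s + 1)) : ℕ) := by omega
    have h6 : (1 + (n - (j + (s + 2)) : ℕ) : ℝ) ≤ (1 + (n - (j + (s + 1)) : ℕ) : ℝ) := by
      have : ((n - (j + (s + 2)) : ℕ) : ℝ) ≤ ((n - (j + (s + 1)) : ℕ) : ℝ) := by exact_mod_cast h5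
      linarith
    set x : ℝ := (1 + (n - (j + (s + 1)) : ℕ) : ℝ) with hx
    have h7 : (Sop ^ (s + 2)) g n ≤ x * (Sop ^ (s + 1)) g n := by
      refine h4.trans (mul_le_mul_of_nonneg_right ?_ (h3 n))
      rw [hx]
      linarith
    calc C * (1 + (n - (j + (s + 2)) : ℕ) : ℝ) ^ E * (Sop ^ (s + 2)) g n
        ≤ C * x ^ E * (x * (Sop ^ (s + 1)) g n) := by
          refine mul_le_mul ?_ h7 (Sop_nonneg hg0 (s + 2) n) (by positivity)
          exact mul_le_mul_of_nonneg_left (pow_le_pow_left₀ (by positivity) h6 _) hC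
      _ = _ := by ring

/-- the operator of a list of letters -/
noncomputable def Lam : List ℕ → Module.End ℝ (ℕ → ℝ)
  | [] => 1
  | (a :: p) => Sop * Th ^ a * Lam p

lemma Lam_app (p q : List ℕ) : Lam (p ++ q) = Lam p * Lam q := by
  induction p with
  | nil => rw [List.nil_append, Lam, one_mul]
  | cons a p ih => rw [List.cons_append, Lam, Lam, ih, mul_assoc, mul_assoc, mul_assoc]

lemma Th_pow (a : ℕ) (f : ℕ → ℝ) (n : ℕ) : (Th ^ a) f n = (((n + 1 : ℕ) : ℝ) ^ a)⁻¹ * f n := by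
  induction a generalizing n with
  | zero => simp
  | succ a ih =>
    rw [pow_succ', Module.End.mul_apply, Th_apply, ih, pow_succ, mul_inv]
    push_cast
    ring

lemma U_eq (p : List ℕ) (f : ℕ → ℝ) : ∀ n, U p f n = Lam p f n := by
  induction p with
  | nil => intro n; rw [U_nil, Lam, Module.End.one_apply]
  | cons a p ih =>
    intro n
    rw [U_cons, Lam, mul_assoc, Module.End.mul_apply, Sop_apply]
    refine Finset.sum_congr rfl fun m _ => ?_
    rw [Module.End.mul_apply, Th_pow, ih]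

lemma Gd_th (a : ℕ) : Gd a 0 (Th ^ a) := by
  induction a with
  | zero => rw [pow_zero]; exact Gd.one
  | succ a ih => rw [pow_succ]; exact (ih.mul Gd.th).cast rfl rfl

lemma Gd_Lam (p : List ℕ) : Gd p.sum p.length (Lam p) := by
  induction p with
  | nil => exact Gd.one
  | cons a p ih =>
    rw [Lam, List.sum_cons, List.length_cons]
    exact ((Gd.sm.mul (Gd_th a)).mul ih).cast (by omega) (by omega)

lemma XY_len (i : ℕ) : (XY i).1.length = 2 ^ (i + 1) ∧ (XY i).2.length = 2 ^ (i + 1) := by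
  induction i with
  | zero => simp [XY]
  | succ i ih =>
    rw [XY]
    simp only [List.length_append, ih.1, ih.2]
    constructor <;> ring

lemma XY_sum (i : ℕ) : (XY i).1.sum = 5 * 2 ^ i ∧ (XY i).2.sum = 5 * 2 ^ i := by
  induction i with
  | zero => simp [XY]
  | succ i ih =>
    rw [XY]
    simp only [List.sum_append, ih.1, ih.2]
    constructor <;> ring

/-- the difference of the two blocks gains `i + 1` factors `θ` -/
lemma Gd_diff (i : ℕ) : Gd (5 * 2 ^ i + i + 1) (2 ^ (i + 1)) (Lam (XY i).1 - Lam (XY i).2) := by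
  induction i with
  | zero =>
    have e : Lam (XY 0).1 - Lam (XY 0).2 = Sop * Th ^ 2 * (Sop * Th - Th * Sop) * Th ^ 2 := by
      rw [XY]
      simp only [Lam, mul_one]
      simp only [pow_succ, pow_zero, one_mul, mul_sub, sub_mul, mul_assoc]
    rw [e]
    exact (((Gd.sm.mul (Gd_th 2)).mul comm_th).mul (Gd_th 2)).cast rfl rfl
  | succ i ih =>
    have e : Lam (XY (i + 1)).1 - Lam (XY (i + 1)).2 =
        (Lam (XY i).1 - Lam (XY i).2) * Lam (XY i).2 - Lam (XY i).2 * (Lam (XY i).1 - Lam (XY i).2) := by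
      rw [XY]
      simp only [Lam_app]
      simp only [mul_sub, sub_mul]
      abel
    rw [e]
    have h1 := comm ih (Gd_Lam (XY i).2)
    rw [(XY_len i).2, (XY_sum i).2] at h1
    exact h1.cast (by rw [pow_succ]; ring) (by rw [pow_succ 2 (i + 1)]; ring)

/-- the operator of a block from below -/
lemma Lam_ge (p : List ℕ) {g : ℕ → ℝ} (hg : ∀ n, 0 ≤ g n) : ∀ n : ℕ, ∀ x : ℝ, (n : ℝ) + 1 ≤ x →
    (Sop ^ p.length) g n ≤ x ^ p.sum * Lam p g n := by
  induction p with
  | nil => intro n x _; simp [Lam]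
  | cons a p ih =>
    intro n x hx
    have hx0 : 0 < x := lt_of_lt_of_le (by positivity) hx
    rw [List.length_cons, List.sum_cons, pow_succ', Module.End.mul_apply, Sop_apply, Lam, mul_assoc, Module.End.mul_apply,
      Sop_apply, Finset.mul_sum]
    refine Finset.sum_le_sum fun m hm => ?_
    rw [Finset.mem_range] at hm
    have hmn : (m : ℝ) + 1 ≤ x := by
      have : (m : ℝ) ≤ n := by exact_mod_cast hm.le
      linarith
    have h1 := ih m x hmn
    rw [Module.End.mul_apply, Th_pow]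
    have h2 : 0 ≤ Lam p g m := by
      have h3 := (Sop_nonneg hg p.length m).trans h1
      exact nonneg_of_mul_nonneg_right h3 (by positivity)
    have h4 : 1 ≤ x ^ a * (((m + 1 : ℕ) : ℝ) ^ a)⁻¹ := by
      rw [← div_eq_mul_inv, le_div_iff₀ (by positivity), one_mul]
      refine pow_le_pow_left₀ (by positivity) ?_ _
      push_cast
      exact hmn
    calc (Sop ^ p.length) g m ≤ 1 * (x ^ p.sum * Lam p g m) := by rw [one_mul]; exact h1
      _ ≤ (x ^ a * (((m + 1 : ℕ) : ℝ) ^ a)⁻¹) * (x ^ p.sum * Lam p g m) :=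
          mul_le_mul_of_nonneg_right h4 (by positivity)
      _ = _ := by ring

/-- **the difference of the two blocks**: relative to each block it is at most
`C ((n + 1) / (j + 1)) ^ W (1 + γ) ^ E (j + 1) ^ (- i - 1)`, where `γ` is the gap -/
theorem diff_bound (i : ℕ) : ∃ (C : ℝ) (E : ℕ), 0 ≤ C ∧ ∀ (j : ℕ) (g : ℕ → ℝ), (∀ n, 0 ≤ g n) → (∀ n < j, g n = 0) → ∀ n,
    |U (XY i).1 g n - U (XY i).2 g n| * ((j : ℝ) + 1) ^ (i + 1) ≤
      C * (1 + (n - (j + 2 ^ (i + 1)) : ℕ) : ℝ) ^ E * (((n : ℝ) + 1) / ((j : ℝ) + 1)) ^ (5 * 2 ^ i) * U (XY i).1 g n := by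
  obtain ⟨C, E, hC, h⟩ := Bdd_of_Gd (Gd_diff i)
  refine ⟨C, E, hC, fun j g hg hj n => ?_⟩
  have h1 := h j g g (fun n => (abs_of_nonneg (hg n)).le) hj n
  have h2 := Lam_ge (XY i).1 hg n ((n : ℝ) + 1) le_rfl
  rw [(XY_len i).1, (XY_sum i).1] at h2
  rw [U_eq, U_eq]
  have e : (Lam (XY i).1 - Lam (XY i).2) g n = Lam (XY i).1 g n - Lam (XY i).2 g n := rfl
  rw [e] at h1
  have hj1 : (0 : ℝ) < (j : ℝ) + 1 := by positivity
  have h3 : |Lam (XY i).1 g n - Lam (XY i).2 g n| * ((j : ℝ) + 1) ^ (i + 1) * ((j : ℝ) + 1) ^ (5 * 2 ^ i) ≤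
      C * (1 + (n - (j + 2 ^ (i + 1)) : ℕ) : ℝ) ^ E * (((n : ℝ) + 1) ^ (5 * 2 ^ i) * Lam (XY i).1 g n) := by
    calc |Lam (XY i).1 g n - Lam (XY i).2 g n| * ((j : ℝ) + 1) ^ (i + 1) * ((j : ℝ) + 1) ^ (5 * 2 ^ i)
        = |Lam (XY i).1 g n - Lam (XY i).2 g n| * ((j : ℝ) + 1) ^ (5 * 2 ^ i + i + 1) := by ring
      _ ≤ C * (1 + (n - (j + 2 ^ (i + 1)) : ℕ) : ℝ) ^ E * (Sop ^ 2 ^ (i + 1)) g n := h1
      _ ≤ _ := mul_le_mul_of_nonneg_left h2 (by positivity)
  rw [div_pow]
  rw [← mul_le_mul_iff_left₀ (show (0 : ℝ) < ((j : ℝ) + 1) ^ (5 * 2 ^ i) by positivity)]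
  refine h3.trans (le_of_eq ?_)
  field_simp

end Pool.Agent.L5helper45.HW
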