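import Mathlib
import Pool.Agent.L5helper45.HW.Op
import Pool.Agent.L5helper39.HW.Diff
import Pool.Agent.L5helper85.HW.Gap

/-!
# Hoffman words: exchanging the blocks `X_i`, `Y_i` inside a long word
-/

set_option autoImplicit false

namespace Pool.Agent.L5helper45.HW

open Filter Topology
open Pool.Agent.L5helper80.MZ (U U_nil U_cons U_app U_le U_lin D D_pos H_ge_D H_app H_zero adm_of)
open Pool.Agent.H447R2.MZ (H H_nil H_cons H_nonneg H_mono val tendsto_H H_le_val)
open Pool.Agent.L5helper5.SP (L23 Wd mem_Wd card_Wd)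
open Pool.Agent.L5helper39.HW (Mn_ratio)
open Pool.Agent.L5helper85.HW (gap)

lemma two_le {w : List ℕ} (h : L23 w) : ∀ a ∈ w, 2 ≤ a := fun a ha => by
  rcases h a ha with rfl | rfl <;> norm_num

lemma L23_append {p q : List ℕ} : L23 (p ++ q) ↔ L23 p ∧ L23 q := by
  constructor
  · intro h
    exact ⟨fun x hx => h x (by simp [hx]), fun x hx => h x (by simp [hx])⟩
  · rintro ⟨h1, h2⟩ x hx
    rw [List.mem_append] at hx
    rcases hx with h | h
    · exact h1 x h
    · exact h2 x h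

lemma XY_L23 (i : ℕ) : L23 (XY i).1 ∧ L23 (XY i).2 := by
  induction i with
  | zero => constructor <;> (intro x hx; simp [XY] at hx; omega)
  | succ i ih =>
    rw [XY]
    exact ⟨L23_append.2 ⟨ih.1, ih.2⟩, L23_append.2 ⟨ih.2, ih.1⟩⟩

lemma Mn_pos : ∀ (p : List ℕ) (j : ℕ), 0 < Mn p j
  | [], j => by rw [Mn]; exact one_pos
  | (a :: p), j => by rw [Mn]; exact mul_pos (by positivity) (Mn_pos p j)

lemma U_supp {g : ℕ → ℝ} {j : ℕ} (hg : ∀ n < j, g n = 0) (p : List ℕ) : ∀ n < j + p.length, U p g n = 0 := by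
  induction p with
  | nil => intro n hn; rw [U_nil]; exact hg n (by simpa using hn)
  | cons a p ih =>
    intro n hn
    rw [List.length_cons] at hn
    rw [U_cons]
    refine Finset.sum_eq_zero fun m hm => ?_
    rw [Finset.mem_range] at hm
    rw [ih m (by omega), mul_zero]

/-- the first term -/
lemma U_first {g : ℕ → ℝ} {j : ℕ} (hg : ∀ n < j, g n = 0) (p : List ℕ) : U p g (j + p.length) = Mn p j * g j := by
  induction p with
  | nil => rw [U_nil, Mn, List.length_nil, one_mul, add_zero]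
  | cons a p ih =>
    rw [U_cons, Mn, List.length_cons, ← add_assoc, Finset.sum_range_succ]
    rw [Finset.sum_eq_zero fun m hm => ?_, ih]
    · push_cast
      ring
    · rw [Finset.mem_range] at hm
      rw [U_supp hg p m hm, mul_zero]

lemma U_mono' {f g : ℕ → ℝ} (h : ∀ n, f n ≤ g n) (p : List ℕ) (M : ℕ) : U p f M ≤ U p g M := U_le p M fun n _ => h n

lemma U_nonneg' {f : ℕ → ℝ} (h : ∀ n, 0 ≤ f n) (p : List ℕ) (M : ℕ) : 0 ≤ U p f M := by
  have h1 := U_mono' (f := fun _ => (0 : ℝ) * 0 + 0 * 0) (g := f) (by simpa using h) p M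
  rw [U_lin p (fun _ => (0 : ℝ)) (fun _ => (0 : ℝ)) 0 0] at h1
  linarith

/-- an elementary estimate -/
lemma ratio_est {a b x y D ε τ σ c : ℝ} (ha : 0 < a) (hb : 0 < b) (hx : 0 ≤ x) (hy : 0 ≤ y) (hab : a = b * Real.exp D)
    (hε : 0 ≤ ε) (hτ : 0 ≤ τ) (hσ : 0 ≤ σ) (hσ1 : σ ≤ 1) (hxa : x ≤ σ * a) (hyb : y ≤ σ * b)
    (hxy : |x - y| ≤ ε * τ * ((a + x) + (b + y))) (hD : |D| ≤ c * ε) (hD1 : c * ε ≤ 1 / 2) :
    |Real.log (a + x) - Real.log (b + y) - D| ≤ ε * (6 * τ + 2 * c * σ) := by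
  have hexp : Real.exp D ≤ 2 ∧ Real.exp (-D) ≤ 2 := by
    have h1 : |D| ≤ 1 / 2 := hD.trans hD1
    have h2 := abs_le.1 h1
    have h3 : Real.exp (1 / 2) ≤ 2 := by
      have h4 := Real.exp_one_lt_d9
      have h5 : Real.exp (1 / 2) ^ 2 = Real.exp 1 := by
        rw [← Real.exp_nat_mul]
        norm_num
      nlinarith [Real.exp_pos (1 / 2)]
    exact ⟨(Real.exp_le_exp.2 h2.2).trans h3, (Real.exp_le_exp.2 (by linarith)).trans h3⟩
  have hba : b = a * Real.exp (-D) := by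
    rw [hab, mul_assoc, ← Real.exp_add, add_neg_cancel, Real.exp_zero, mul_one]
  -- the quotients
  set u := x / a with hu
  set v := y / b with hv
  have hu0 : 0 ≤ u := div_nonneg hx ha.le
  have hv0 : 0 ≤ v := div_nonneg hy hb.le
  have hvσ : v ≤ σ := by rw [hv, div_le_iff₀ hb]; exact hyb
  have e1 : Real.log (a + x) = Real.log a + Real.log (1 + u) := by
    rw [← Real.log_mul ha.ne' (by positivity), mul_add, mul_one, hu, mul_div_cancel₀ _ ha.ne']
  have e2 : Real.log (b + y) = Real.log b + Real.log (1 + v) := by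
    rw [← Real.log_mul hb.ne' (by positivity), mul_add, mul_one, hv, mul_div_cancel₀ _ hb.ne']
  have e3 : Real.log a = Real.log b + D := by
    rw [hab, Real.log_mul hb.ne' (Real.exp_pos D).ne', Real.log_exp]
  have h1 : |Real.log (1 + u) - Real.log (1 + v)| ≤ |u - v| := by
    have key : ∀ s t : ℝ, 0 ≤ s → s ≤ t → |Real.log (1 + t) - Real.log (1 + s)| ≤ |t - s| := by
      intro s t hs hst
      have ht : 0 ≤ t := hs.trans hst
      rw [← Real.log_div (by positivity) (by positivity), abs_of_nonneg (Real.log_nonneg (by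
        rw [le_div_iff₀ (by positivity)]; linarith)), abs_of_nonneg (by linarith)]
      refine (Real.log_le_sub_one_of_pos (by positivity)).trans ?_
      rw [div_sub_one (by positivity), div_le_iff₀ (by positivity)]
      nlinarith
    rcases le_total u v with h | h
    · rw [abs_sub_comm, abs_sub_comm u v]
      exact key u v hu0 h
    · exact key v u hv0 h
  have h2 : u - v = (x - y) / a + v * (Real.exp (-D) - 1) := by
    have : v * (Real.exp (-D) - 1) = y / b * Real.exp (-D) - y / b := by rw [hv]; ring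
    rw [this, hu, hv]
    have h3 : y / b * Real.exp (-D) = y / a := by
      rw [hba]
      field_simp
    rw [h3]
    ring
  have h3 : |(x - y) / a| ≤ ε * τ * 6 := by
    rw [abs_div, abs_of_pos ha, div_le_iff₀ ha]
    refine hxy.trans ?_
    have h4 : (a + x) + (b + y) ≤ 6 * a := by
      have h5 : x ≤ a := by nlinarith
      have h6 : y ≤ b := by nlinarith
      have h7 : b ≤ 2 * a := by
        rw [hba]
        nlinarith [hexp.2]
      linarith
    have h5 : 0 ≤ ε * τ := mul_nonneg hε hτ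
    nlinarith [mul_le_mul_of_nonneg_left h4 h5]
  have h4 : |v * (Real.exp (-D) - 1)| ≤ σ * (2 * (c * ε)) := by
    rw [abs_mul, abs_of_nonneg hv0]
    have h5 : |Real.exp (-D) - 1| ≤ 2 * |(-D)| := by
      have := Real.abs_exp_sub_one_le (x := -D) (by rw [abs_neg]; linarith)
      exact this
    rw [abs_neg] at h5
    exact mul_le_mul hvσ (h5.trans (by linarith)) (abs_nonneg _) hσ
  have h5 : |u - v| ≤ ε * τ * 6 + σ * (2 * (c * ε)) := by
    rw [h2]
    exact (abs_add_le _ _).trans (add_le_add h3 h4)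
  rw [e1, e2, e3]
  have e4 : Real.log b + D + Real.log (1 + u) - (Real.log b + Real.log (1 + v)) - D =
      Real.log (1 + u) - Real.log (1 + v) := by ring
  rw [e4]
  refine (h1.trans h5).trans (le_of_eq ?_)
  ring

/-- the estimate for the truncated sums, for words with the gap estimate -/
lemma window_trunc (I : ℕ) : ∃ (c : ℝ) (J : ℕ), 0 < c ∧ 1 ≤ J ∧ ∀ (p q : List ℕ) (l : ℝ), J ≤ q.length →
    (q.length : ℝ) ^ 6 ≤ l → ∀ M, p.length + ((XY I).1 ++ q).length ≤ M →
    (∀ u : List ℕ, (u = (XY I).1 ++ q ∨ u = (XY I).2 ++ q) → ∀ e : ℕ, (e = 1 ∨ e = I + 2) →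
      U p (fun n => if u.length + e ≤ n then H u n else 0) M ≤
        2 * (((u.length + e : ℕ) : ℝ) ^ 2 / l) ^ e * U p (H u) M) →
      2 / 3 * c / (q.length : ℝ) ^ (I + 1) ≤
        (-1) ^ I * (Real.log (H (p ++ ((XY I).1 ++ q)) M) - Real.log (H (p ++ ((XY I).2 ++ q)) M)) ∧
      (-1) ^ I * (Real.log (H (p ++ ((XY I).1 ++ q)) M) - Real.log (H (p ++ ((XY I).2 ++ q)) M)) ≤
        4 / 3 * c / (q.length : ℝ) ^ (I + 1) := by
  obtain ⟨c, hc, hM⟩ := Mn_ratio I
  obtain ⟨C, E, hC, hdiff⟩ := diff_bound I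
  set X := (XY I).1 with hX
  set Y := (XY I).2 with hY
  set s := 2 ^ (I + 1) with hs
  have hXl : X.length = s := (XY_len I).1
  have hYl : Y.length = s := (XY_len I).2
  set d := I + 1 with hd
  -- the constant of the middle part
  set C1 : ℝ := C * (1 + (d : ℝ)) ^ E * 2 ^ (5 * 2 ^ I) with hC1
  have hC10 : 0 ≤ C1 := by positivity
  -- the size of `j`
  obtain ⟨J, hJ⟩ : ∃ J : ℕ, ∀ j : ℕ, J ≤ j → 16 ≤ j ∧ s + d + 1 ≤ j ∧
      c / (j : ℝ) ^ d ≤ 1 / 2 ∧ 9 / 10 * (((j : ℝ) + s) ^ d) ≤ (j : ℝ) ^ d ∧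
      60 * (6 * (2 * C1 + 2) + 8 * c) ≤ c * j := by
    refine ⟨16 + s + d + 1 + 10 * d * s + ⌈2 * c⌉₊ + ⌈60 * (6 * (2 * C1 + 2) + 8 * c) / c⌉₊, fun j hj => ?_⟩
    have hj0 : (0 : ℝ) < j := by exact_mod_cast (by omega : 0 < j)
    refine ⟨by omega, by omega, ?_, ?_, ?_⟩
    · rw [div_le_iff₀ (by positivity)]
      have h1 : 2 * c ≤ j := (Nat.le_ceil _).trans (by exact_mod_cast (by omega : ⌈2 * c⌉₊ ≤ j))
      have h2 : (j : ℝ) ≤ (j : ℝ) ^ d := by
        refine le_self_pow₀ ?_ (by omega)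
        exact_mod_cast (by omega : 1 ≤ j)
      linarith
    · have h1 : (10 * d * s : ℝ) ≤ j := by exact_mod_cast (by omega : 10 * d * s ≤ j)
      have hjs : (0 : ℝ) < (j : ℝ) + s := by positivity
      have h2 := one_add_mul_le_pow (a := -((s : ℝ) / (j + s))) (by
        have : (s : ℝ) / (j + s) ≤ 1 := by rw [div_le_one hjs]; linarith
        linarith) d
      have h3 : 1 + -((s : ℝ) / (j + s)) = j / (j + s) := by field_simp; ring
      rw [h3, div_pow] at h2
      have h4 : 9 / 10 ≤ 1 + (d : ℝ) * -((s : ℝ) / (j + s)) := by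
        have h5 : (d : ℝ) * ((s : ℝ) / (j + s)) ≤ 1 / 10 := by
          rw [← mul_div_assoc, div_le_iff₀ hjs]
          have : (0 : ℝ) ≤ s := Nat.cast_nonneg _
          linarith
        linarith
      have h5 := h4.trans h2
      rwa [le_div_iff₀ (by positivity)] at h5
    · have h1 : 60 * (6 * (2 * C1 + 2) + 8 * c) / c ≤ j :=
        (Nat.le_ceil _).trans (by exact_mod_cast (by omega : ⌈60 * (6 * (2 * C1 + 2) + 8 * c) / c⌉₊ ≤ j))
      rw [div_le_iff₀ hc] at h1
      linarith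
  refine ⟨c, J + 1, hc, by omega, fun p q l hJq hpq M hMM hgap => ?_⟩
  set j := q.length with hj
  obtain ⟨hj16, hjs, hj1, hj2, hj3⟩ := hJ j (by omega)
  set r := j + s with hr
  have hj0 : (0 : ℝ) < j := by exact_mod_cast (by omega : 0 < j)
  have hj16' : (16 : ℝ) ≤ j := by exact_mod_cast hj16
  have hXq : (X ++ q).length = r := by rw [List.length_append, hXl, ← hj]; omega
  have hYq : (Y ++ q).length = r := by rw [List.length_append, hYl, ← hj]; omega
  have hlj : (j : ℝ) ^ 6 ≤ l := hpq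
  have hl0 : (0 : ℝ) < l := lt_of_lt_of_le (by positivity) hlj
  -- the functions
  set fX : ℕ → ℝ := H (X ++ q) with hfX
  set fY : ℕ → ℝ := H (Y ++ q) with hfY
  have hfX0 : ∀ n, 0 ≤ fX n := fun n => H_nonneg _ n
  have hfY0 : ∀ n, 0 ≤ fY n := fun n => H_nonneg _ n
  have hfXs : ∀ n < r, fX n = 0 := fun n hn => H_zero _ n (by rw [hXq]; exact hn)
  have hfYs : ∀ n < r, fY n = 0 := fun n hn => H_zero _ n (by rw [hYq]; exact hn)
  have hqs : ∀ n < j, H q n = 0 := fun n hn => H_zero _ n hn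
  have hfXU : ∀ n, fX n = U X (H q) n := fun n => by rw [hfX, H_app]
  have hfYU : ∀ n, fY n = U Y (H q) n := fun n => by rw [hfY, H_app]
  set VX := H (p ++ (X ++ q)) M with hVX
  set VY := H (p ++ (Y ++ q)) M with hVY
  have eVX : VX = U p fX M := by rw [hVX, H_app]
  have eVY : VY = U p fY M := by rw [hVY, H_app]
  have hVX0 : 0 < VX := by
    have h1 := H_ge_D (p ++ (X ++ q)) M (by rw [List.length_append]; exact hMM)
    have h2 := D_pos (p ++ (X ++ q))
    by_contra h3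
    push Not at h3
    nlinarith
  have hVY0 : 0 < VY := by
    have h1 := H_ge_D (p ++ (Y ++ q)) M (by rw [List.length_append, hYq, ← hXq]; exact hMM)
    have h2 := D_pos (p ++ (Y ++ q))
    by_contra h3
    push Not at h3
    nlinarith
  -- the parts
  set P0X := U p (fun n => if n = r then fX n else 0) M with hP0X
  set P0Y := U p (fun n => if n = r then fY n else 0) M with hP0Y
  set P1X := U p (fun n => if r + 1 ≤ n then fX n else 0) M with hP1X
  set P1Y := U p (fun n => if r + 1 ≤ n then fY n else 0) M with hP1Y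
  set P2X := U p (fun n => if r + (d + 1) ≤ n then fX n else 0) M with hP2X
  set P2Y := U p (fun n => if r + (d + 1) ≤ n then fY n else 0) M with hP2Y
  have hP1X0 : 0 ≤ P1X := U_nonneg' (fun n => by split_ifs; exacts [hfX0 n, le_rfl]) p M
  have hP1Y0 : 0 ≤ P1Y := U_nonneg' (fun n => by split_ifs; exacts [hfY0 n, le_rfl]) p M
  have hP2X0 : 0 ≤ P2X := U_nonneg' (fun n => by split_ifs; exacts [hfX0 n, le_rfl]) p M
  have hP2Y0 : 0 ≤ P2Y := U_nonneg' (fun n => by split_ifs; exacts [hfY0 n, le_rfl]) p M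
  have sX : VX = P0X + P1X := by
    have h1 := U_lin p (fun n => if n = r then fX n else 0) (fun n => if r + 1 ≤ n then fX n else 0) 1 1 M
    rw [one_mul, one_mul] at h1
    rw [eVX, hP0X, hP1X, ← h1]
    congr 1
    funext n
    rcases lt_trichotomy n r with h | h | h
    · rw [if_neg (by omega), if_neg (by omega), hfXs n h]; ring
    · rw [if_pos h, if_neg (by omega)]; ring
    · rw [if_neg (by omega), if_pos (by omega)]; ring
  have sY : VY = P0Y + P1Y := by
    have h1 := U_lin p (fun n => if n = r then fY n else 0) (fun n => if r + 1 ≤ n then fY n else 0) 1 1 M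
    rw [one_mul, one_mul] at h1
    rw [eVY, hP0Y, hP1Y, ← h1]
    congr 1
    funext n
    rcases lt_trichotomy n r with h | h | h
    · rw [if_neg (by omega), if_neg (by omega), hfYs n h]; ring
    · rw [if_pos h, if_neg (by omega)]; ring
    · rw [if_neg (by omega), if_pos (by omega)]; ring
  -- the first terms
  set Dd := Real.log (Mn X j / Mn Y j) with hDd
  have hexp : Real.exp Dd = Mn X j / Mn Y j := Real.exp_log (div_pos (Mn_pos _ _) (Mn_pos _ _))
  have s0 : P0X = P0Y * Real.exp Dd := by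
    have h1 := U_lin p (fun n => if n = r then fY n else 0) (fun _ => 0) (Real.exp Dd) 0 M
    simp only [zero_mul, add_zero] at h1
    rw [← hP0Y] at h1
    rw [mul_comm, ← h1, hP0X]
    congr 1
    funext n
    rcases eq_or_ne n r with h | h
    · rw [if_pos h, if_pos h, h, hfXU, hfYU, hexp]
      have h2 := U_first hqs X
      have h3 := U_first hqs Y
      rw [hXl] at h2
      rw [hYl] at h3
      rw [hr, h2, h3]
      have := (Mn_pos Y j).ne'
      field_simp
    · rw [if_neg h, if_neg h, mul_zero]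
  -- the gap estimate
  have hrj : ((r + (d + 1) : ℕ) : ℝ) ≤ 2 * j := by exact_mod_cast (by omega : r + (d + 1) ≤ 2 * j)
  have hj3p : (0 : ℝ) < (j : ℝ) ^ 3 := by positivity
  have g0 : ∀ x : ℝ, 0 ≤ x → x ≤ 2 * j → x ^ 2 / l ≤ 1 / (j : ℝ) ^ 3 := by
    intro x hx0 hx
    rw [div_le_div_iff₀ hl0 hj3p, one_mul]
    have h1 : x ^ 2 ≤ 4 * (j : ℝ) ^ 2 := by nlinarith
    calc x ^ 2 * (j : ℝ) ^ 3 ≤ 4 * (j : ℝ) ^ 2 * (j : ℝ) ^ 3 := mul_le_mul_of_nonneg_right h1 hj3p.le
      _ = 4 * (j : ℝ) ^ 5 := by ring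
      _ ≤ (j : ℝ) * (j : ℝ) ^ 5 := mul_le_mul_of_nonneg_right (by linarith) (by positivity)
      _ = (j : ℝ) ^ 6 := by ring
      _ ≤ l := hlj
  have g1X : P1X ≤ 2 * (1 / (j : ℝ) ^ 3) * VX := by
    have h1 := hgap (X ++ q) (Or.inl rfl) 1 (Or.inl rfl)
    rw [hXq, pow_one, ← hfX, ← hP1X, ← eVX] at h1
    refine h1.trans (mul_le_mul_of_nonneg_right ?_ hVX0.le)
    refine mul_le_mul_of_nonneg_left (g0 _ (Nat.cast_nonneg _) ?_) (by norm_num)
    exact le_trans (by exact_mod_cast (by omega : r + 1 ≤ r + (d + 1))) hrj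
  have g1Y : P1Y ≤ 2 * (1 / (j : ℝ) ^ 3) * VY := by
    have h1 := hgap (Y ++ q) (Or.inr rfl) 1 (Or.inl rfl)
    rw [hYq, pow_one, ← hfY, ← hP1Y, ← eVY] at h1
    refine h1.trans (mul_le_mul_of_nonneg_right ?_ hVY0.le)
    refine mul_le_mul_of_nonneg_left (g0 _ (Nat.cast_nonneg _) ?_) (by norm_num)
    exact le_trans (by exact_mod_cast (by omega : r + 1 ≤ r + (d + 1))) hrj
  set ε : ℝ := 1 / (j : ℝ) ^ d with hε
  have hε0 : 0 < ε := by positivity
  have g2 : (1 / (j : ℝ) ^ 3) ^ (d + 1) ≤ ε * (1 / (j : ℝ) ^ 3) := by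
    rw [pow_succ]
    refine mul_le_mul_of_nonneg_right ?_ (by positivity)
    rw [hε, one_div_pow]
    refine one_div_le_one_div_of_le (by positivity) ?_
    refine pow_le_pow_left₀ hj0.le ?_ _
    exact le_self_pow₀ (by linarith) (by norm_num)
  have g2X : P2X ≤ 2 * (ε * (1 / (j : ℝ) ^ 3)) * VX := by
    have h1 := hgap (X ++ q) (Or.inl rfl) (d + 1) (Or.inr rfl)
    rw [hXq, ← hfX, ← hP2X, ← eVX] at h1
    refine h1.trans (mul_le_mul_of_nonneg_right ?_ hVX0.le)
    refine mul_le_mul_of_nonneg_left ?_ (by norm_num)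
    refine le_trans (pow_le_pow_left₀ (by positivity) (g0 _ (Nat.cast_nonneg _) hrj) _) g2
  have g2Y : P2Y ≤ 2 * (ε * (1 / (j : ℝ) ^ 3)) * VY := by
    have h1 := hgap (Y ++ q) (Or.inr rfl) (d + 1) (Or.inr rfl)
    rw [hYq, ← hfY, ← hP2Y, ← eVY] at h1
    refine h1.trans (mul_le_mul_of_nonneg_right ?_ hVY0.le)
    refine mul_le_mul_of_nonneg_left ?_ (by norm_num)
    refine le_trans (pow_le_pow_left₀ (by positivity) (g0 _ (Nat.cast_nonneg _) hrj) _) g2
  -- the middle part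
  set κ : ℝ := C1 * ε with hκ
  have hκ0 : 0 ≤ κ := by positivity
  have hpt : ∀ n, r + 1 ≤ n → n < r + (d + 1) → |fX n - fY n| ≤ κ * fX n := by
    intro n hn1 hn2
    have h1 := hdiff j (H q) (H_nonneg q) hqs n
    rw [← hfXU, ← hfYU] at h1
    have hjj : (0 : ℝ) < ((j : ℝ) + 1) ^ (I + 1) := by positivity
    have h2 : ((n - (j + 2 ^ (I + 1)) : ℕ) : ℝ) ≤ d := by exact_mod_cast (by omega : n - (j + s) ≤ d)
    have h3 : ((n : ℝ) + 1) / ((j : ℝ) + 1) ≤ 2 := by
      rw [div_le_iff₀ (by positivity)]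
      have : ((n : ℝ) + 1) ≤ 2 * j := by exact_mod_cast (by omega : n + 1 ≤ 2 * j)
      linarith
    have h4 : C * (1 + (n - (j + 2 ^ (I + 1)) : ℕ) : ℝ) ^ E * (((n : ℝ) + 1) / ((j : ℝ) + 1)) ^ (5 * 2 ^ I) * fX n ≤
        C1 * fX n := by
      refine mul_le_mul_of_nonneg_right ?_ (hfX0 n)
      rw [hC1]
      refine mul_le_mul (mul_le_mul_of_nonneg_left (pow_le_pow_left₀ (by positivity) (by linarith) _) hC)
        (pow_le_pow_left₀ (by positivity) h3 _) (by positivity) (by positivity)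
    have h5 : |fX n - fY n| ≤ C1 * fX n / ((j : ℝ) + 1) ^ (I + 1) := by
      rw [le_div_iff₀ hjj]
      exact h1.trans h4
    refine h5.trans ?_
    rw [hκ, hε]
    calc C1 * fX n / ((j : ℝ) + 1) ^ (I + 1) ≤ C1 * fX n / (j : ℝ) ^ (I + 1) := by
          refine div_le_div_of_nonneg_left (mul_nonneg hC10 (hfX0 n)) (by positivity) ?_
          exact pow_le_pow_left₀ hj0.le (by linarith) _
      _ = C1 * (1 / (j : ℝ) ^ d) * fX n := by rw [hd]; ring
  have lin3 : ∀ (f1 f2 f3 f4 : ℕ → ℝ), U p (fun n => 1 * (1 * f1 n + κ * f2 n) + 1 * (1 * f3 n + 1 * f4 n)) M =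
      U p f1 M + κ * U p f2 M + U p f3 M + U p f4 M := by
    intro f1 f2 f3 f4
    rw [U_lin p (fun n => 1 * f1 n + κ * f2 n) (fun n => 1 * f3 n + 1 * f4 n), U_lin, U_lin]
    ring
  have m1 : P1X ≤ P1Y + κ * P1X + P2X + P2Y := by
    rw [hP1Y, hP2X, hP2Y, hP1X, ← lin3]
    refine U_mono' (fun n => ?_) p M
    rcases Nat.lt_or_ge n (r + 1) with h | h
    · rw [if_neg (by omega), if_neg (by omega), if_neg (by omega), if_neg (by omega)]; simp
    · rcases Nat.lt_or_ge n (r + (d + 1)) with h' | h'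
      · rw [if_pos h, if_pos h, if_neg (by omega), if_neg (by omega)]
        have := (abs_le.1 (hpt n h h')).2
        linarith
      · rw [if_pos h, if_pos h, if_pos h', if_pos h']
        have h1 := hfX0 n
        have h2 := hfY0 n
        have h3 := mul_nonneg hκ0 h1
        linarith
  have m2 : P1Y ≤ P1X + κ * P1X + P2X + P2Y := by
    rw [hP1Y, hP2X, hP2Y, hP1X, ← lin3]
    refine U_mono' (fun n => ?_) p M
    rcases Nat.lt_or_ge n (r + 1) with h | h
    · rw [if_neg (by omega), if_neg (by omega), if_neg (by omega), if_neg (by omega)]; simp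
    · rcases Nat.lt_or_ge n (r + (d + 1)) with h' | h'
      · rw [if_pos h, if_pos h, if_neg (by omega), if_neg (by omega)]
        have := (abs_le.1 (hpt n h h')).1
        linarith
      · rw [if_pos h, if_pos h, if_pos h', if_pos h']
        have h1 := hfX0 n
        have h2 := hfY0 n
        have h3 := mul_nonneg hκ0 h1
        linarith
  -- summary
  set t : ℝ := 1 / (j : ℝ) ^ 3 with ht
  have ht0 : 0 < t := by positivity
  have ht1 : t ≤ 1 / 16 := by
    rw [ht]
    refine one_div_le_one_div_of_le (by norm_num) ?_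
    calc (16 : ℝ) ≤ j := hj16'
      _ ≤ (j : ℝ) ^ 3 := le_self_pow₀ (by linarith) (by norm_num)
  have hP0X : P1X ≤ (4 * t) * P0X := by nlinarith
  have hP0Y : P1Y ≤ (4 * t) * P0Y := by nlinarith
  have hP0Xp : 0 < P0X := by nlinarith
  have hP0Yp : 0 < P0Y := by nlinarith
  have hA := hM j
  have hsc : ((2 : ℝ) ^ (I + 1)) = (s : ℝ) := by rw [hs]; push_cast; rfl
  rw [hsc] at hA
  have hD1 : |Dd| = (-1) ^ I * Dd := by
    have h1 : 0 < (-1) ^ I * Dd := lt_of_lt_of_le (by positivity) hA.1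
    have h2 : |(-1) ^ I * Dd| = |Dd| := by rw [abs_mul, abs_pow, abs_neg, abs_one, one_pow, one_mul]
    rw [← h2, abs_of_pos h1]
  have hD2 : (-1) ^ I * Dd ≤ c * ε := by
    refine hA.2.trans ?_
    rw [hε, mul_one_div]
    refine div_le_div_of_nonneg_left hc.le (by positivity) ?_
    exact pow_le_pow_left₀ hj0.le (by linarith) _
  have hD3 : 9 / 10 * (c * ε) ≤ (-1) ^ I * Dd := by
    refine le_trans ?_ hA.1
    rw [hε, mul_one_div, le_div_iff₀ (by positivity)]
    calc 9 / 10 * (c / (j : ℝ) ^ d) * ((j : ℝ) + s) ^ (I + 1) = c / (j : ℝ) ^ d * (9 / 10 * ((j : ℝ) + s) ^ d) := by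
          rw [hd]; ring
      _ ≤ c / (j : ℝ) ^ d * (j : ℝ) ^ d := mul_le_mul_of_nonneg_left hj2 (by positivity)
      _ = c := by field_simp
  have hcε : c * ε ≤ 1 / 2 := by rw [hε, mul_one_div]; exact hj1
  have hdiff2 : |P1X - P1Y| ≤ ε * ((2 * C1 + 2) * t) * ((P0X + P1X) + (P0Y + P1Y)) := by
    rw [← sX, ← sY]
    have h1 : κ * P1X ≤ κ * (2 * t * VX) := mul_le_mul_of_nonneg_left g1X hκ0
    have h2 : κ * (2 * t * VX) = ε * (2 * C1 * t) * VX := by rw [hκ]; ring
    have h3 : 0 ≤ ε * (2 * C1 * t) * VY := by positivity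
    rw [abs_le]
    constructor
    · nlinarith
    · nlinarith
  have key := ratio_est (a := P0X) (b := P0Y) (x := P1X) (y := P1Y) (D := Dd) (ε := ε) (τ := (2 * C1 + 2) * t) (σ := 4 * t)
    (c := c) hP0Xp hP0Yp hP1X0 hP1Y0 s0 hε0.le (by positivity) (by positivity) (by linarith) hP0X hP0Y hdiff2
    (by rw [hD1]; exact hD2) hcε
  rw [← sX, ← sY] at key
  have hsmall : 6 * ((2 * C1 + 2) * t) + 2 * c * (4 * t) ≤ c / 60 := by
    have h1 : 6 * ((2 * C1 + 2) * t) + 2 * c * (4 * t) = (6 * (2 * C1 + 2) + 8 * c) * t := by ring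
    have h2 : (6 * (2 * C1 + 2) + 8 * c) ≤ c / 60 * j := by linarith
    have h3 : (j : ℝ) * t ≤ 1 := by
      rw [ht, mul_one_div, div_le_one (by positivity)]
      exact le_self_pow₀ (by linarith) (by norm_num)
    rw [h1]
    calc (6 * (2 * C1 + 2) + 8 * c) * t ≤ c / 60 * j * t := mul_le_mul_of_nonneg_right h2 ht0.le
      _ = c / 60 * (j * t) := by ring
      _ ≤ c / 60 * 1 := mul_le_mul_of_nonneg_left h3 (by positivity)
      _ = c / 60 := by ring
  have key2 : |(-1) ^ I * (Real.log VX - Real.log VY) - (-1) ^ I * Dd| ≤ ε * (c / 60) := by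
    have h1 : (-1 : ℝ) ^ I * (Real.log VX - Real.log VY) - (-1) ^ I * Dd = (-1) ^ I * (Real.log VX - Real.log VY - Dd) := by ring
    rw [h1, abs_mul, abs_pow, abs_neg, abs_one, one_pow, one_mul]
    exact key.trans (mul_le_mul_of_nonneg_left hsmall hε0.le)
  have key3 := abs_le.1 key2
  have e1 : 2 / 3 * c / (j : ℝ) ^ (I + 1) = 2 / 3 * (c * ε) := by rw [hε, hd]; ring
  have e2 : 4 / 3 * c / (j : ℝ) ^ (I + 1) = 4 / 3 * (c * ε) := by rw [hε, hd]; ring
  have hcε0 : 0 < c * ε := by positivity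
  rw [e1, e2]
  constructor
  · nlinarith [key3.1, hD3]
  · nlinarith [key3.2, hD2]

lemma val_pos {w : List ℕ} (h : L23 w) : 0 < val w := by
  have h1 := H_ge_D w w.length le_rfl
  have h2 := D_pos w
  have h3 := H_le_val w (adm_of (two_le h)) w.length
  have h4 : 0 < H w w.length := by
    by_contra h5
    push Not at h5
    nlinarith
  linarith

/-- **the window lemma** -/
theorem window (I : ℕ) : ∃ (c : ℝ) (J : ℕ), 0 < c ∧ 1 ≤ J ∧ ∀ (p q : List ℕ), L23 p → L23 q → J ≤ q.length →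
    q.length ^ 6 ≤ p.length →
      2 / 3 * c / (q.length : ℝ) ^ (I + 1) ≤
        |Real.log (val (p ++ ((XY I).1 ++ q))) - Real.log (val (p ++ ((XY I).2 ++ q)))| ∧
      |Real.log (val (p ++ ((XY I).1 ++ q))) - Real.log (val (p ++ ((XY I).2 ++ q)))| ≤
        4 / 3 * c / (q.length : ℝ) ^ (I + 1) := by
  obtain ⟨c, J, hc, hJ, h⟩ := window_trunc I
  have hp2 : 0 < 2 ^ (I + 1) := Nat.two_pow_pos _
  refine ⟨c, J + 4 + 2 ^ (I + 1), hc, by omega, fun p q hp hq hJq hpq => ?_⟩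
  have hX23 : L23 ((XY I).1 ++ q) := L23_append.2 ⟨(XY_L23 I).1, hq⟩
  have hY23 : L23 ((XY I).2 ++ q) := L23_append.2 ⟨(XY_L23 I).2, hq⟩
  have h1 : L23 (p ++ ((XY I).1 ++ q)) := L23_append.2 ⟨hp, hX23⟩
  have h2 : L23 (p ++ ((XY I).2 ++ q)) := L23_append.2 ⟨hp, hY23⟩
  set j := q.length with hj
  have hl1 : 1 ≤ p.length := by
    have : 1 ≤ j ^ 6 := Nat.one_le_pow _ _ (by omega)
    omega
  have hlr : 2 * (2 ^ (I + 1) + j) ^ 3 ≤ p.length := by
    have e1 : (2 ^ (I + 1) + j) ^ 3 ≤ (2 * j) ^ 3 := Nat.pow_le_pow_left (by omega) 3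
    have e3 : 16 * j ^ 3 ≤ j ^ 6 := by
      have h4 : 16 ≤ j ^ 3 := by
        have h5 : 4 ^ 3 ≤ j ^ 3 := Nat.pow_le_pow_left (by omega) 3
        omega
      calc 16 * j ^ 3 ≤ j ^ 3 * j ^ 3 := Nat.mul_le_mul_right _ h4
        _ = j ^ 6 := by ring
    have h6 : (2 * j) ^ 3 = 8 * j ^ 3 := by ring
    omega
  have hg : ∀ M : ℕ, ∀ u : List ℕ, (u = (XY I).1 ++ q ∨ u = (XY I).2 ++ q) → ∀ e : ℕ, (e = 1 ∨ e = I + 2) →
      U p (fun n => if u.length + e ≤ n then H u n else 0) M ≤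
        2 * (((u.length + e : ℕ) : ℝ) ^ 2 / (p.length : ℝ)) ^ e * U p (H u) M := by
    intro M u hu e _
    have hul : u.length = 2 ^ (I + 1) + j := by
      rcases hu with rfl | rfl
      · rw [List.length_append, (XY_len I).1]
      · rw [List.length_append, (XY_len I).2]
    have hu23 : L23 u := by
      rcases hu with rfl | rfl
      · exact hX23
      · exact hY23
    exact gap p u hp hu23 e hl1 (by rw [hul]; exact hlr) M
  have t1 := (tendsto_H _ (adm_of (two_le h1))).log (val_pos h1).ne'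
  have t2 := (tendsto_H _ (adm_of (two_le h2))).log (val_pos h2).ne'
  have t3 := (t1.sub t2).const_mul ((-1 : ℝ) ^ I)
  have hev : ∀ᶠ M : ℕ in atTop, p.length + ((XY I).1 ++ q).length ≤ M := eventually_ge_atTop _
  have hjl : (j : ℝ) ^ 6 ≤ (p.length : ℝ) := by exact_mod_cast hpq
  have l1 := ge_of_tendsto t3 (hev.mono fun M hM => (h p q p.length (by omega) hjl M hM (hg M)).1)
  have l2 := le_of_tendsto t3 (hev.mono fun M hM => (h p q p.length (by omega) hjl M hM (hg M)).2)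
  have hpos : 0 ≤ (-1 : ℝ) ^ I * (Real.log (val (p ++ ((XY I).1 ++ q))) - Real.log (val (p ++ ((XY I).2 ++ q)))) :=
    le_trans (by positivity) l1
  have e : |Real.log (val (p ++ ((XY I).1 ++ q))) - Real.log (val (p ++ ((XY I).2 ++ q)))| =
      (-1 : ℝ) ^ I * (Real.log (val (p ++ ((XY I).1 ++ q))) - Real.log (val (p ++ ((XY I).2 ++ q)))) := by
    rw [← abs_of_nonneg hpos, abs_mul, abs_pow, abs_neg, abs_one, one_pow, one_mul]
  rw [e]
  exact ⟨l1, l2⟩

end Pool.Agent.L5helper45.HW
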