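import Mathlib
import Pool.Agent.L5helper45.HW.Base

/-!
# Swapping blocks in words: orbits of size `2 ^ q`
-/

set_option autoImplicit false

namespace Pool.Agent.L5helper45.HW

open Pool.Agent.L5helper5.SP (L23 Wd mem_Wd card_Wd)

namespace Orb

/-- `w` with the block of length `l` at `j` replaced by `B` -/
def rp (l j : ℕ) (B w : List ℕ) : List ℕ := w.take j ++ B ++ w.drop (j + l)

/-- `w` with the blocks at `pos 0, ..., pos (m - 1)` replaced by `β 0, ..., β (m - 1)` -/
def F (l : ℕ) (pos : ℕ → ℕ) (β : ℕ → List ℕ) (w : List ℕ) : ℕ → List ℕ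
  | 0 => w
  | m + 1 => rp l (pos m) (β m) (F l pos β w m)

lemma rp_length {l j : ℕ} {B w : List ℕ} (h : j + l ≤ w.length) (hB : B.length = l) :
    (rp l j B w).length = w.length := by
  simp only [rp, List.length_append, List.length_take, List.length_drop, hB]
  omega

lemma rp_get {l j : ℕ} {B w : List ℕ} (h : j + l ≤ w.length) (hB : B.length = l) (p : ℕ) :
    (rp l j B w)[p]? = if j ≤ p ∧ p < j + l then B[p - j]? else w[p]? := by
  have hlen : (w.take j ++ B).length = j + l := by
    rw [List.length_append, List.length_take, hB]; omega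
  have hlen2 : (w.take j).length = j := by rw [List.length_take]; omega
  unfold rp
  split_ifs with hp
  · rw [List.getElem?_append_left (by omega), List.getElem?_append_right (by omega), hlen2]
  · by_cases h1 : p < j
    · rw [List.getElem?_append_left (by omega), List.getElem?_append_left (by omega),
        List.getElem?_take_of_lt h1]
    · have h2 : j + l ≤ p := by omega
      rw [List.getElem?_append_right (by omega), hlen, List.getElem?_drop]
      congr 1
      omega

lemma split3 {l j : ℕ} (w : List ℕ) : w.take j ++ (w.drop j).take l ++ w.drop (j + l) = w := by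
  rw [List.append_assoc, ← List.drop_drop, List.take_append_drop, List.take_append_drop]

section
variable {l q : ℕ} {pos : ℕ → ℕ} {β : ℕ → List ℕ} {w : List ℕ}

lemma F_length (hw : ∀ i < q, pos i + l ≤ w.length) (hβ : ∀ i < q, (β i).length = l) :
    ∀ m ≤ q, (F l pos β w m).length = w.length
  | 0, _ => rfl
  | m + 1, hm => by
    have ih := F_length hw hβ m (by omega)
    rw [F, rp_length (by rw [ih]; exact hw m (by omega)) (hβ m (by omega)), ih]

lemma F_get_out (hw : ∀ i < q, pos i + l ≤ w.length) (hβ : ∀ i < q, (β i).length = l) (p : ℕ) :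
    ∀ m ≤ q, (∀ i < m, ¬ (pos i ≤ p ∧ p < pos i + l)) → (F l pos β w m)[p]? = w[p]?
  | 0, _, _ => rfl
  | m + 1, hm, hp => by
    have ih := F_get_out hw hβ p m (by omega) (fun i hi => hp i (by omega))
    rw [F, rp_get (by rw [F_length hw hβ m (by omega)]; exact hw m (by omega)) (hβ m (by omega)),
      if_neg (hp m (by omega)), ih]

lemma F_get_in (hw : ∀ i < q, pos i + l ≤ w.length) (hβ : ∀ i < q, (β i).length = l)
    (hd : ∀ i j, i < j → j < q → pos i + l ≤ pos j) (p : ℕ) :
    ∀ m ≤ q, ∀ i < m, pos i ≤ p → p < pos i + l → (F l pos β w m)[p]? = (β i)[p - pos i]?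
  | 0, _, i, hi, _, _ => absurd hi (by omega)
  | m + 1, hm, i, hi, h1, h2 => by
    rw [F, rp_get (by rw [F_length hw hβ m (by omega)]; exact hw m (by omega)) (hβ m (by omega))]
    rcases Nat.lt_succ_iff_lt_or_eq.1 hi with h | rfl
    · have := hd i m h (by omega)
      rw [if_neg (by omega)]
      exact F_get_in hw hβ hd p m (by omega) i h h1 h2
    · rw [if_pos ⟨h1, h2⟩]

lemma F_blk (hw : ∀ i < q, pos i + l ≤ w.length) (hβ : ∀ i < q, (β i).length = l)
    (hd : ∀ i j, i < j → j < q → pos i + l ≤ pos j) {m : ℕ} (hm : m ≤ q) {i : ℕ} (hi : i < m) :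
    ((F l pos β w m).drop (pos i)).take l = β i := by
  apply List.ext_getElem?
  intro p
  rw [List.getElem?_take]
  split_ifs with hp
  · rw [List.getElem?_drop, F_get_in hw hβ hd _ m hm i hi (by omega) (by omega)]
    congr 1
    omega
  · rw [List.getElem?_eq_none]
    rw [hβ i (by omega)]; omega

lemma F_blk_out (hw : ∀ i < q, pos i + l ≤ w.length) (hβ : ∀ i < q, (β i).length = l)
    {m : ℕ} (hm : m ≤ q) {j : ℕ} (hj : ∀ i < m, pos i + l ≤ j ∨ j + l ≤ pos i) :
    ((F l pos β w m).drop j).take l = (w.drop j).take l := by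
  apply List.ext_getElem?
  intro p
  rw [List.getElem?_take, List.getElem?_take]
  split_ifs with hp
  · rw [List.getElem?_drop, List.getElem?_drop, F_get_out hw hβ _ m hm]
    intro i hi
    have := hj i hi
    omega
  · rfl

lemma F_self (hw : ∀ i < q, pos i + l ≤ w.length) (hd : ∀ i j, i < j → j < q → pos i + l ≤ pos j)
    {m : ℕ} (hm : m ≤ q) (hβ : ∀ i < q, (β i).length = l) (h : ∀ i < m, β i = (w.drop (pos i)).take l) :
    F l pos β w m = w := by
  apply List.ext_getElem?
  intro p
  by_cases hp : ∀ i < m, ¬ (pos i ≤ p ∧ p < pos i + l)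
  · exact F_get_out hw hβ p m hm hp
  · push Not at hp
    obtain ⟨i, hi, h1, h2⟩ := hp
    rw [F_get_in hw hβ hd p m hm i hi h1 h2, h i hi, List.getElem?_take_of_lt (by omega), List.getElem?_drop]
    congr 1
    omega

lemma F_congr {l m : ℕ} {pos pos' : ℕ → ℕ} {β β' : ℕ → List ℕ} {w : List ℕ} (h1 : ∀ i < m, pos i = pos' i)
    (h2 : ∀ i < m, β i = β' i) : F l pos β w m = F l pos' β' w m := by
  induction m with
  | zero => rfl
  | succ m ih =>
    rw [F, F, ih (fun i hi => h1 i (by omega)) (fun i hi => h2 i (by omega)), h1 m (by omega), h2 m (by omega)]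

lemma F_F {γ : ℕ → List ℕ} (hw : ∀ i < q, pos i + l ≤ w.length) (hβ : ∀ i < q, (β i).length = l)
    (hγ : ∀ i < q, (γ i).length = l)
    (hd : ∀ i j, i < j → j < q → pos i + l ≤ pos j) :
    F l pos γ (F l pos β w q) q = F l pos γ w q := by
  have hw' : ∀ i < q, pos i + l ≤ (F l pos β w q).length := by
    intro i hi
    rw [F_length hw hβ q le_rfl]
    exact hw i hi
  apply List.ext_getElem?
  intro p
  by_cases hp : ∀ i < q, ¬ (pos i ≤ p ∧ p < pos i + l)
  · rw [F_get_out hw' hγ p q le_rfl hp, F_get_out hw hγ p q le_rfl hp, F_get_out hw hβ p q le_rfl hp]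
  · push Not at hp
    obtain ⟨i, hi, h1, h2⟩ := hp
    rw [F_get_in hw' hγ hd p q le_rfl i hi h1 h2, F_get_in hw hγ hd p q le_rfl i hi h1 h2]

end

/-- the first hit in the `i`-th scale -/
noncomputable def fh (X Y : List ℕ) (a : ℕ → ℕ) (w : List ℕ) (i : ℕ) : ℕ :=
  sInf {t | Hit X Y w (a i + t * X.length)}

/-- the position of the first hit -/
noncomputable def ps (X Y : List ℕ) (a : ℕ → ℕ) (w : List ℕ) (i : ℕ) : ℕ :=
  a i + fh X Y a w i * X.length


section
variable {X Y : List ℕ} {a : ℕ → ℕ} {q n : ℕ} {w : List ℕ}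

lemma fh_hit {i : ℕ} (h : ∃ t < n, Hit X Y w (a i + t * X.length)) :
    fh X Y a w i < n ∧ Hit X Y w (ps X Y a w i) := by
  obtain ⟨t, ht, h⟩ := h
  have hne : {t | Hit X Y w (a i + t * X.length)}.Nonempty := ⟨t, h⟩
  exact ⟨lt_of_le_of_lt (Nat.sInf_le h) ht, Nat.sInf_mem hne⟩

lemma a_mono (ha : ∀ i, i + 1 < q → a i + n * X.length ≤ a (i + 1)) (i j : ℕ) (hij : i < j) (hj : j < q) :
    a i + n * X.length ≤ a j := by
  induction j with
  | zero => omega
  | succ j ih =>
    rcases Nat.lt_succ_iff_lt_or_eq.1 hij with h | rfl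
    · have h1 := ih h (by omega)
      have h2 := ha j hj
      have h3 : 0 ≤ n * X.length := Nat.zero_le _
      omega
    · exact ha i hj

lemma ps_bound {i : ℕ} (h : fh X Y a w i < n) : ps X Y a w i + X.length ≤ a i + n * X.length := by
  have : (fh X Y a w i + 1) * X.length ≤ n * X.length := Nat.mul_le_mul_right _ h
  unfold ps
  rw [add_mul, one_mul] at this
  omega

lemma ps_disj (ha : ∀ i, i + 1 < q → a i + n * X.length ≤ a (i + 1))
    (h : ∀ i < q, fh X Y a w i < n) (i j : ℕ) (hij : i < j) (hj : j < q) :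
    ps X Y a w i + X.length ≤ ps X Y a w j := by
  have h1 := ps_bound (h i (by omega))
  have h2 := a_mono ha i j hij hj
  have h3 : a j ≤ ps X Y a w j := Nat.le_add_right _ _
  omega

lemma hit_len (hl : X.length = Y.length) (h0 : 0 < X.length) {j : ℕ} (h : Hit X Y w j) :
    j + X.length ≤ w.length := by
  have : ((w.drop j).take X.length).length = X.length := by
    rcases h with h | h
    · rw [h]
    · rw [h, hl]
  rw [List.length_take, List.length_drop] at this
  omega

/-- replacing the blocks of the first hits keeps the positions of the first hits -/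
lemma ps_F (hl : X.length = Y.length) (h0 : 0 < X.length)
    (ha : ∀ i, i + 1 < q → a i + n * X.length ≤ a (i + 1))
    (h : ∀ i < q, ∃ t < n, Hit X Y w (a i + t * X.length)) {β : ℕ → List ℕ} (hβ : ∀ i, β i = X ∨ β i = Y)
    {i : ℕ} (hi : i < q) : Hit X Y (F X.length (ps X Y a w) β w q) (ps X Y a w i) ∧
    fh X Y a (F X.length (ps X Y a w) β w q) i = fh X Y a w i := by
  have hβ' : ∀ i < q, (β i).length = X.length := by
    intro i _
    rcases hβ i with h | h
    · rw [h]
    · rw [h, hl]
  have hw : ∀ i < q, ps X Y a w i + X.length ≤ w.length := fun i hi => hit_len hl h0 (fh_hit (h i hi)).2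
  have hn : ∀ i < q, fh X Y a w i < n := fun i hi => (fh_hit (h i hi)).1
  have hd := ps_disj (w := w) ha hn
  have h1 : Hit X Y (F X.length (ps X Y a w) β w q) (ps X Y a w i) := by
    unfold Hit
    rw [F_blk hw hβ' hd le_rfl hi]
    exact hβ i
  refine ⟨h1, ?_⟩
  have key : ∀ t < fh X Y a w i, ¬ Hit X Y (F X.length (ps X Y a w) β w q) (a i + t * X.length) := by
    intro t ht hh
    have h2 : ¬ Hit X Y w (a i + t * X.length) := Nat.notMem_of_lt_sInf (s := {t | Hit X Y w (a i + t * X.length)}) ht
    apply h2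
    unfold Hit at hh ⊢
    rw [F_blk_out hw hβ' le_rfl] at hh
    · exact hh
    · intro j hj
      have e1 : (t + 1) * X.length ≤ fh X Y a w i * X.length := Nat.mul_le_mul_right _ ht
      rw [add_mul, one_mul] at e1
      have e2 : a i + t * X.length + X.length ≤ ps X Y a w i := by unfold ps; omega
      rcases lt_trichotomy j i with h | rfl | h
      · left
        have := ps_bound (hn j hj)
        have := a_mono ha j i h hi
        omega
      · right
        exact e2
      · right
        have := hd i j h hj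
        omega
  have hmem : fh X Y a w i ∈ {t | Hit X Y (F X.length (ps X Y a w) β w q) (a i + t * X.length)} := h1
  apply le_antisymm (Nat.sInf_le hmem)
  by_contra hlt
  push Not at hlt
  exact key _ hlt (Nat.sInf_mem (s := {t | Hit X Y (F X.length (ps X Y a w) β w q) (a i + t * X.length)}) ⟨_, hmem⟩)

lemma L23_app {u v : List ℕ} : L23 (u ++ v) ↔ L23 u ∧ L23 v := by
  simp only [L23, List.mem_append]
  constructor
  · intro h
    exact ⟨fun x hx => h x (Or.inl hx), fun x hx => h x (Or.inr hx)⟩
  · rintro ⟨h1, h2⟩ x (hx | hx)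
    · exact h1 x hx
    · exact h2 x hx

/-- the intermediate words stay words of the same weight -/
lemma F_good (hl : X.length = Y.length) (hs : X.sum = Y.sum) (hX : L23 X) (hY : L23 Y) (h0 : 0 < X.length)
    (ha : ∀ i, i + 1 < q → a i + n * X.length ≤ a (i + 1))
    (h : ∀ i < q, ∃ t < n, Hit X Y w (a i + t * X.length)) {β : ℕ → List ℕ} (hβ : ∀ i, β i = X ∨ β i = Y)
    (hw3 : L23 w) : ∀ m ≤ q, L23 (F X.length (ps X Y a w) β w m) ∧ (F X.length (ps X Y a w) β w m).sum = w.sum
  | 0, _ => ⟨hw3, rfl⟩
  | m + 1, hm => by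
    obtain ⟨ih1, ih2⟩ := F_good hl hs hX hY h0 ha h hβ hw3 m (by omega)
    have hβ' : ∀ i < q, (β i).length = X.length := by
      intro i _
      rcases hβ i with h | h
      · rw [h]
      · rw [h, hl]
    have hw : ∀ i < q, ps X Y a w i + X.length ≤ w.length := fun i hi => hit_len hl h0 (fh_hit (h i hi)).2
    have hn : ∀ i < q, fh X Y a w i < n := fun i hi => (fh_hit (h i hi)).1
    have hd := ps_disj (w := w) ha hn
    have hb : ((F X.length (ps X Y a w) β w m).drop (ps X Y a w m)).take X.length =
        (w.drop (ps X Y a w m)).take X.length :=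
      F_blk_out hw hβ' (by omega) (fun i hi => Or.inl (hd i m hi (by omega)))
    have hb2 := (fh_hit (h m (by omega))).2
    have hb3 : ((w.drop (ps X Y a w m)).take X.length).sum = X.sum := by
      rcases hb2 with h | h
      · rw [h]
      · rw [h, hs]
    have hsp := split3 (l := X.length) (j := ps X Y a w m) (F X.length (ps X Y a w) β w m)
    rw [hb] at hsp
    have hsum : (β m).sum = X.sum := by
      rcases hβ m with h | h
      · rw [h]
      · rw [h, hs]
    constructor
    · rw [F, rp, L23_app, L23_app]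
      rw [← hsp, L23_app, L23_app] at ih1
      refine ⟨⟨ih1.1.1, ?_⟩, ih1.2⟩
      rcases hβ m with h | h
      · rw [h]; exact hX
      · rw [h]; exact hY
    · rw [F, rp, List.sum_append, List.sum_append, hsum, ← ih2]
      conv_rhs => rw [← hsp]
      rw [List.sum_append, List.sum_append, hb3]


/-- one swap changes `L` by an amount between `lo` and `hi` -/
lemma F_step (hl : X.length = Y.length) (hs : X.sum = Y.sum) (hX : L23 X) (hY : L23 Y) (h0 : 0 < X.length)
    {k : ℕ} (ha : ∀ i, i + 1 < q → a i + n * X.length ≤ a (i + 1)) (L : List ℕ → ℝ) (lo hi : ℕ → ℝ)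
    (hw : ∀ i < q, ∀ t < n, ∀ u v : List ℕ, L23 u → L23 v → u.length = a i + t * X.length → (u ++ X ++ v).sum = k →
      lo i ≤ |L (u ++ X ++ v) - L (u ++ Y ++ v)| ∧ |L (u ++ X ++ v) - L (u ++ Y ++ v)| ≤ hi i)
    (h : ∀ i < q, ∃ t < n, Hit X Y w (a i + t * X.length)) {β : ℕ → List ℕ} (hβ : ∀ i, β i = X ∨ β i = Y)
    (hw3 : L23 w) (hwk : w.sum = k) {m : ℕ} (hm : m < q) :
    |L (F X.length (ps X Y a w) β w (m + 1)) - L (F X.length (ps X Y a w) β w m)| ≤ hi m ∧
    (β m ≠ (w.drop (ps X Y a w m)).take X.length →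
      lo m ≤ |L (F X.length (ps X Y a w) β w (m + 1)) - L (F X.length (ps X Y a w) β w m)|) ∧
    (β m = (w.drop (ps X Y a w m)).take X.length →
      F X.length (ps X Y a w) β w (m + 1) = F X.length (ps X Y a w) β w m) := by
  obtain ⟨g1, g2⟩ := F_good hl hs hX hY h0 ha h hβ hw3 m hm.le
  have hβ' : ∀ i < q, (β i).length = X.length := by
    intro i _
    rcases hβ i with h | h
    · rw [h]
    · rw [h, hl]
  have hwl : ∀ i < q, ps X Y a w i + X.length ≤ w.length := fun i hi => hit_len hl h0 (fh_hit (h i hi)).2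
  have hn : ∀ i < q, fh X Y a w i < n := fun i hi => (fh_hit (h i hi)).1
  have hd := ps_disj (w := w) ha hn
  have hlen := F_length hwl hβ' m hm.le
  have hb : ((F X.length (ps X Y a w) β w m).drop (ps X Y a w m)).take X.length =
      (w.drop (ps X Y a w m)).take X.length :=
    F_blk_out hwl hβ' (by omega) (fun i hi => Or.inl (hd i m hi (by omega)))
  have hsp := split3 (l := X.length) (j := ps X Y a w m) (F X.length (ps X Y a w) β w m)
  rw [hb] at hsp
  have hF : F X.length (ps X Y a w) β w (m + 1) = (F X.length (ps X Y a w) β w m).take (ps X Y a w m) ++ β m ++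
      (F X.length (ps X Y a w) β w m).drop (ps X Y a w m + X.length) := rfl
  set u := (F X.length (ps X Y a w) β w m).take (ps X Y a w m) with hu
  set v := (F X.length (ps X Y a w) β w m).drop (ps X Y a w m + X.length) with hv
  have hb2 : (w.drop (ps X Y a w m)).take X.length = X ∨ (w.drop (ps X Y a w m)).take X.length = Y :=
    (fh_hit (h m (by omega))).2
  have hul : u.length = a m + fh X Y a w m * X.length := by
    rw [hu, List.length_take, hlen]
    have := hwl m hm
    unfold ps at this ⊢
    omega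
  have g1' := g1
  rw [← hsp, L23_app, L23_app] at g1'
  have hsum : (u ++ X ++ v).sum = k := by
    rw [← hsp, List.sum_append, List.sum_append] at g2
    rw [List.sum_append, List.sum_append, ← hwk, ← g2]
    rcases hb2 with e | e
    · rw [e]
    · rw [e, hs]
  have H := hw m hm (fh X Y a w m) (hn m hm) u v g1'.1.1 g1'.2 hul hsum
  have hhi : 0 ≤ hi m := (abs_nonneg _).trans H.2
  rcases hβ m with e1 | e1 <;> rcases hb2 with e2 | e2
  · have e3 : F X.length (ps X Y a w) β w (m + 1) = F X.length (ps X Y a w) β w m := by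
      rw [hF, e1]; rw [e2] at hsp; exact hsp
    refine ⟨by rw [e3]; simpa using hhi, fun h => absurd (e1.trans e2.symm) h, fun _ => e3⟩
  · have e3 : F X.length (ps X Y a w) β w m = u ++ Y ++ v := by rw [e2] at hsp; exact hsp.symm
    rw [hF, e1, e3] at *
    exact ⟨H.2, fun _ => H.1, fun h => by rw [h, e2]⟩
  · have e3 : F X.length (ps X Y a w) β w m = u ++ X ++ v := by rw [e2] at hsp; exact hsp.symm
    rw [hF, e1, e3] at *
    rw [abs_sub_comm] at H
    exact ⟨H.2, fun _ => H.1, fun h => by rw [h, e2]⟩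
  · have e3 : F X.length (ps X Y a w) β w (m + 1) = F X.length (ps X Y a w) β w m := by
      rw [hF, e1]; rw [e2] at hsp; exact hsp
    refine ⟨by rw [e3]; simpa using hhi, fun h => absurd (e1.trans e2.symm) h, fun _ => e3⟩

end

end Orb

open Classical in
theorem swaps (X Y : List ℕ) (hl : X.length = Y.length) (hs : X.sum = Y.sum) (hXY : X ≠ Y) (hX : L23 X) (hY : L23 Y)
    (q n k : ℕ) (a : ℕ → ℕ) (ha : ∀ i, i + 1 < q → a i + n * X.length ≤ a (i + 1))
    (hk : ∀ i < q, 3 * (a i + n * X.length) ≤ k) (L : List ℕ → ℝ) (lo hi : ℕ → ℝ)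
    (hw : ∀ i < q, ∀ t < n, ∀ u v : List ℕ, L23 u → L23 v → u.length = a i + t * X.length → (u ++ X ++ v).sum = k →
      lo i ≤ |L (u ++ X ++ v) - L (u ++ Y ++ v)| ∧ |L (u ++ X ++ v) - L (u ++ Y ++ v)| ≤ hi i)
    (ε : ℝ) (hε : ∀ i < q, ε + ∑ m ∈ Finset.Ico (i + 1) q, hi m < lo i) (y : ℝ) :
    (((Wd k).filter fun w => (∀ i < q, ∃ t < n, Hit X Y w (a i + t * X.length)) ∧ y ≤ L w ∧ L w ≤ y + ε).card) * 2 ^ q ≤
      (Wd k).card := by
  have h0 : 0 < X.length := by
    rcases Nat.eq_zero_or_pos X.length with h | h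
    · exfalso
      apply hXY
      have hY0 : Y.length = 0 := by rw [← hl]; exact h
      rw [List.eq_nil_of_length_eq_zero h, List.eq_nil_of_length_eq_zero hY0]
    · exact h
  set A := (Wd k).filter fun w => (∀ i < q, ∃ t < n, Hit X Y w (a i + t * X.length)) ∧ y ≤ L w ∧ L w ≤ y + ε with hA
  have hAm : ∀ w ∈ A, L23 w ∧ w.sum = k ∧ (∀ i < q, ∃ t < n, Hit X Y w (a i + t * X.length)) ∧ y ≤ L w ∧ L w ≤ y + ε := by
    intro w hw
    rw [hA, Finset.mem_filter, mem_Wd] at hw
    exact ⟨hw.1.1, hw.1.2, hw.2⟩
  set bt : Finset ℕ → ℕ → List ℕ := fun S i => if i ∈ S then X else Y with hbt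
  have hbtXY : ∀ S i, bt S i = X ∨ bt S i = Y := by
    intro S i
    by_cases h : i ∈ S
    · left; simp [hbt, h]
    · right; simp [hbt, h]
  have hlen : ∀ β : ℕ → List ℕ, (∀ i, β i = X ∨ β i = Y) → ∀ i < q, (β i).length = X.length := by
    intro β hβ i _
    rcases hβ i with h | h
    · rw [h]
    · rw [h, hl]
  have hcard : (A ×ˢ (Finset.range q).powerset).card ≤ (Wd k).card := by
    apply Finset.card_le_card_of_injOn (fun x => Orb.F X.length (Orb.ps X Y a x.1) (bt x.2) x.1 q)
    · rintro ⟨w, S⟩ hx
      rw [Finset.coe_product, Set.mem_prod] at hx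
      obtain ⟨h1, h2, h3, -, -⟩ := hAm w hx.1
      have := Orb.F_good hl hs hX hY h0 ha h3 (hbtXY S) h1 q le_rfl
      rw [Finset.mem_coe, mem_Wd]
      exact ⟨this.1, by rw [this.2, h2]⟩
    · rintro ⟨w, S⟩ hx ⟨w', S'⟩ hx' hEq
      rw [Finset.coe_product, Set.mem_prod] at hx hx'
      simp only at hEq hx hx'
      obtain ⟨h1, h2, h3, h4, h5⟩ := hAm w hx.1
      obtain ⟨h1', h2', h3', h4', h5'⟩ := hAm w' hx'.1
      have hSq : S ⊆ Finset.range q := Finset.mem_powerset.1 hx.2
      have hSq' : S' ⊆ Finset.range q := Finset.mem_powerset.1 hx'.2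
      -- the positions agree
      have hfh : ∀ i < q, Orb.fh X Y a w i = Orb.fh X Y a w' i := by
        intro i hi
        rw [← (Orb.ps_F hl h0 ha h3 (hbtXY S) hi).2, ← (Orb.ps_F hl h0 ha h3' (hbtXY S') hi).2, hEq]
      have hps : ∀ i < q, Orb.ps X Y a w i = Orb.ps X Y a w' i := by
        intro i hi
        unfold Orb.ps
        rw [hfh i hi]
      have hwl : ∀ i < q, Orb.ps X Y a w i + X.length ≤ w.length :=
        fun i hi => Orb.hit_len hl h0 (Orb.fh_hit (h3 i hi)).2
      have hwl' : ∀ i < q, Orb.ps X Y a w' i + X.length ≤ w'.length :=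
        fun i hi => Orb.hit_len hl h0 (Orb.fh_hit (h3' i hi)).2
      have hd := Orb.ps_disj (w := w) ha (fun i hi => (Orb.fh_hit (h3 i hi)).1)
      have hd' := Orb.ps_disj (w := w') ha (fun i hi => (Orb.fh_hit (h3' i hi)).1)
      have hSS : ∀ i < q, bt S i = bt S' i := by
        intro i hi
        have e1 := Orb.F_blk hwl (hlen _ (hbtXY S)) hd le_rfl hi
        have e2 := Orb.F_blk hwl' (hlen _ (hbtXY S')) hd' le_rfl hi
        rw [← hEq, ← hps i hi, e1] at e2
        exact e2
      have hSeq : S = S' := by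
        ext i
        by_cases hi : i < q
        · have := hSS i hi
          simp only [hbt] at this
          by_cases m1 : i ∈ S <;> by_cases m2 : i ∈ S'
          · exact ⟨fun _ => m2, fun _ => m1⟩
          · rw [if_pos m1, if_neg m2] at this
            exact absurd this hXY
          · rw [if_neg m1, if_pos m2] at this
            exact absurd this.symm hXY
          · exact ⟨fun h => absurd h m1, fun h => absurd h m2⟩
        · exact ⟨fun h => absurd (Finset.mem_range.1 (hSq h)) hi, fun h => absurd (Finset.mem_range.1 (hSq' h)) hi⟩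
      -- the blocks of `w'`
      set γ : ℕ → List ℕ := fun i => if i < q then (w'.drop (Orb.ps X Y a w' i)).take X.length else X with hγ
      have hγXY : ∀ i, γ i = X ∨ γ i = Y := by
        intro i
        by_cases hi : i < q
        · simp only [hγ, if_pos hi]
          exact (Orb.fh_hit (h3' i hi)).2
        · left; simp only [hγ, if_neg hi]
      have hw' : Orb.F X.length (Orb.ps X Y a w) γ w q = w' := by
        have e1 : Orb.F X.length (Orb.ps X Y a w') γ w' q = w' :=
          Orb.F_self hwl' hd' le_rfl (hlen _ hγXY) (fun i hi => by simp only [hγ, if_pos hi])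
        have e2 := Orb.F_F hwl' (hlen _ (hbtXY S')) (hlen _ hγXY) hd'
        have e3 := Orb.F_F hwl (hlen _ (hbtXY S)) (hlen _ hγXY) hd
        rw [← e3, hEq]
        exact (Orb.F_congr hps (fun _ _ => rfl)).trans (e2.trans e1)
      have hww : w = w' := by
        by_contra hne
        have hex : ∃ i, i < q ∧ γ i ≠ (w.drop (Orb.ps X Y a w i)).take X.length := by
          by_contra hcon
          push Not at hcon
          apply hne
          rw [← hw']
          exact (Orb.F_self hwl hd le_rfl (hlen _ hγXY) hcon).symm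
        obtain ⟨hiq, hine⟩ := Nat.find_spec hex
        have hmin : ∀ j < Nat.find hex, γ j = (w.drop (Orb.ps X Y a w j)).take X.length := by
          intro j hj
          have := Nat.find_min hex hj
          push Not at this
          exact this (by omega)
        set i := Nat.find hex with hi'
        have s1 : Orb.F X.length (Orb.ps X Y a w) γ w i = w :=
          Orb.F_self hwl hd hiq.le (hlen _ hγXY) hmin
        have s2 := (Orb.F_step hl hs hX hY h0 ha L lo hi hw h3 hγXY h1 h2 hiq).2.1 hine
        rw [s1] at s2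
        have s3 : ∀ j, i + 1 ≤ j → j ≤ q →
            |L (Orb.F X.length (Orb.ps X Y a w) γ w j) - L (Orb.F X.length (Orb.ps X Y a w) γ w (i + 1))| ≤
              ∑ m ∈ Finset.Ico (i + 1) j, hi m := by
          intro j hj
          induction j, hj using Nat.le_induction with
          | base => intro _; simp
          | succ j hj ih =>
            intro hjq
            have s4 := (Orb.F_step hl hs hX hY h0 ha L lo hi hw h3 hγXY h1 h2 (m := j) (by omega)).1
            have s5 := ih (by omega)
            rw [Finset.sum_Ico_succ_top (by omega)]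
            calc _ ≤ |L (Orb.F X.length (Orb.ps X Y a w) γ w (j + 1)) - L (Orb.F X.length (Orb.ps X Y a w) γ w j)| +
                  |L (Orb.F X.length (Orb.ps X Y a w) γ w j) - L (Orb.F X.length (Orb.ps X Y a w) γ w (i + 1))| :=
                  abs_sub_le _ _ _
              _ ≤ _ := by linarith
        have s6 := s3 q hiq le_rfl
        rw [hw'] at s6
        have s7 := hε i hiq
        have s8 : |L w' - L w| ≤ ε := by rw [abs_le]; constructor <;> linarith
        have s9 : |L (Orb.F X.length (Orb.ps X Y a w) γ w (i + 1)) - L w| ≤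
            |L (Orb.F X.length (Orb.ps X Y a w) γ w (i + 1)) - L w'| + |L w' - L w| := abs_sub_le _ _ _
        rw [abs_sub_comm] at s6
        linarith
      exact Prod.ext hww hSeq
  rw [Finset.card_product, Finset.card_powerset, Finset.card_range] at hcard
  exact hcard

end Pool.Agent.L5helper45.HW
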