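import Mathlib
import Pool.Agent.L5helper45.HW.Base

/-!
# Tuples of words: linear forms and polynomials in the values
-/

set_option autoImplicit false

namespace Pool.Agent.L5helper45.HW

open Finset

/-- a bound along the coordinate `i` gives the bound for the tuples -/
lemma fib_bound {α : Type*} {r : ℕ} (W : Fin r → Finset α) (i : Fin r) (p : (Fin r → α) → Prop)
    [DecidablePred p] (m : ℝ)
    (h : ∀ u ∈ Fintype.piFinset W,
      (((W i).filter fun x => p (Function.update u i x)).card : ℝ) ≤ m * (W i).card) :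
    (((Fintype.piFinset W).filter p).card : ℝ) ≤ m * ∏ j, ((W j).card : ℝ) := by
  classical
  rcases Finset.eq_empty_or_nonempty (W i) with h0 | h0
  · have h1 : ((Fintype.piFinset W).filter p) = ∅ := by
      rw [filter_eq_empty_iff]
      intro w hw
      rw [Fintype.mem_piFinset] at hw
      have := hw i
      rw [h0] at this
      exact absurd this (notMem_empty _)
    have h2 : ∏ j, ((W j).card : ℝ) = 0 := by
      rw [prod_eq_zero_iff]
      exact ⟨i, mem_univ i, by rw [h0]; simp⟩
    rw [h1, h2]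
    simp
  have hc : (0 : ℝ) < (W i).card := by exact_mod_cast h0.card_pos
  have h1 : ((Fintype.piFinset W).filter p).card * (W i).card ≤
      ∑ u ∈ Fintype.piFinset W, ((W i).filter fun x => p (Function.update u i x)).card := by
    rw [← card_product, ← card_sigma]
    refine card_le_card_of_injOn
      (fun q => (⟨Function.update q.1 i q.2, q.1 i⟩ : (_ : Fin r → α) × α)) ?_ ?_
    · rintro ⟨w, x⟩ hq
      rw [mem_coe, mem_product, mem_filter, Fintype.mem_piFinset] at hq
      obtain ⟨⟨h2, h3⟩, h4⟩ := hq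
      rw [mem_coe, mem_sigma, mem_filter, Fintype.mem_piFinset]
      refine ⟨fun j => ?_, h2 i, ?_⟩
      · by_cases hj : j = i
        · subst hj
          simpa using h4
        · simpa [Function.update_of_ne hj] using h2 j
      · simpa using h3
    · rintro ⟨w, x⟩ _ ⟨w', x'⟩ _ hq
      simp only [Sigma.mk.injEq, heq_eq_eq] at hq
      obtain ⟨h2, h3⟩ := hq
      have h4 : x = x' := by
        have := congrFun h2 i
        simpa using this
      have h5 : w = w' := by
        have h6 : Function.update (Function.update w i x) i (w i) =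
            Function.update (Function.update w' i x') i (w' i) := by rw [h2, h3]
        simpa using h6
      rw [h4, h5]
  have h2 : (((Fintype.piFinset W).filter p).card : ℝ) * (W i).card ≤
      (m * ∏ j, ((W j).card : ℝ)) * (W i).card := by
    calc (((Fintype.piFinset W).filter p).card : ℝ) * (W i).card
        ≤ ∑ u ∈ Fintype.piFinset W, (((W i).filter fun x => p (Function.update u i x)).card : ℝ) := by
          exact_mod_cast h1
      _ ≤ ∑ _u ∈ Fintype.piFinset W, m * (W i).card := sum_le_sum h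
      _ = (m * ∏ j, ((W j).card : ℝ)) * (W i).card := by
          rw [sum_const, Fintype.card_piFinset, nsmul_eq_mul]
          push_cast
          ring
  exact le_of_mul_le_mul_right h2 hc

/-- one linear form -/
lemma one_form (r : ℕ) (W : Fin r → Finset (List ℕ)) (Z : List ℕ → ℝ) (hZ : ∀ i, ∀ w ∈ W i, 0 < Z w)
    (μ : ℝ) (hμ : 0 ≤ μ) (i : Fin r) (δ : ℝ) (hδ : 0 < δ ∧ δ ≤ 1)
    (hm : ∀ y : ℝ, 0 < y → (((W i).filter fun w => y ≤ Z w ∧ Z w ≤ (1 + δ) * y).card : ℝ) ≤ μ * (W i).card)
    (c : Fin r → ℤ) (hc : c i ≠ 0) (z : ℝ) :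
    (((Fintype.piFinset W).filter fun w =>
      |∑ j, (c j : ℝ) * Z (w j) - z| < δ / 4 * (|(c i : ℝ)| * Z (w i))).card : ℝ) ≤
      μ * ∏ j, ((W j).card : ℝ) := by
  classical
  refine fib_bound W i _ μ fun u _ => ?_
  have hc' : (c i : ℝ) ≠ 0 := by exact_mod_cast hc
  have hca : 0 < |(c i : ℝ)| := abs_pos.2 hc'
  set A : ℝ := ∑ j ∈ univ.erase i, (c j : ℝ) * Z (u j) with hA
  set t : ℝ := (z - A) / c i with ht
  have key : ∀ x, |∑ j, (c j : ℝ) * Z (Function.update u i x j) - z| <
      δ / 4 * (|(c i : ℝ)| * Z (Function.update u i x i)) → |Z x - t| < δ / 4 * Z x := by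
    intro x hx
    rw [Function.update_self] at hx
    have h1 : ∑ j, (c j : ℝ) * Z (Function.update u i x j) = c i * Z x + A := by
      rw [← Finset.add_sum_erase univ _ (mem_univ i), Function.update_self, hA]
      congr 1
      refine sum_congr rfl fun j hj => ?_
      rw [Function.update_of_ne (ne_of_mem_erase hj)]
    have h2 : ∑ j, (c j : ℝ) * Z (Function.update u i x j) - z = c i * (Z x - t) := by
      rw [h1, ht]
      field_simp
      ring
    rw [h2, abs_mul] at hx
    have h3 : |(c i : ℝ)| * |Z x - t| < |(c i : ℝ)| * (δ / 4 * Z x) := by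
      calc |(c i : ℝ)| * |Z x - t| < δ / 4 * (|(c i : ℝ)| * Z x) := hx
        _ = |(c i : ℝ)| * (δ / 4 * Z x) := by ring
    exact lt_of_mul_lt_mul_left h3 hca.le
  by_cases ht0 : 0 < t
  · have hy : 0 < t / (1 + δ / 4) := by
      have := hδ.1
      positivity
    refine le_trans ?_ (hm _ hy)
    have h1 : ((W i).filter fun x => |∑ j, (c j : ℝ) * Z (Function.update u i x j) - z| <
        δ / 4 * (|(c i : ℝ)| * Z (Function.update u i x i))) ⊆
        (W i).filter fun w => t / (1 + δ / 4) ≤ Z w ∧ Z w ≤ (1 + δ) * (t / (1 + δ / 4)) := by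
      intro x hx
      rw [mem_filter] at hx ⊢
      have h2 := abs_lt.1 (key x hx.2)
      have h3 := hZ i x hx.1
      have h4 : 0 < 1 + δ / 4 := by linarith [hδ.1]
      refine ⟨hx.1, ?_, ?_⟩
      · rw [div_le_iff₀ h4]
        nlinarith
      · rw [← mul_div_assoc, le_div_iff₀ h4]
        -- Z (1 - δ/4) < t, (1 + δ/4) ≤ (1 + δ) (1 - δ/4)
        have h5 : Z x * (1 - δ / 4) ≤ t := by linarith [h2.1]
        have h6 : (1 + δ) * (Z x * (1 - δ / 4)) ≤ (1 + δ) * t :=
          mul_le_mul_of_nonneg_left h5 (by linarith [hδ.1])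
        have h7 : Z x * (1 + δ / 4) ≤ (1 + δ) * (Z x * (1 - δ / 4)) := by
          have h8 : 0 ≤ Z x * (δ / 2 - δ ^ 2 / 4) := by
            apply mul_nonneg h3.le
            nlinarith [hδ.1, hδ.2]
          nlinarith
        linarith
    exact_mod_cast card_le_card h1
  · have h1 : ((W i).filter fun x => |∑ j, (c j : ℝ) * Z (Function.update u i x j) - z| <
        δ / 4 * (|(c i : ℝ)| * Z (Function.update u i x i))) = ∅ := by
      rw [filter_eq_empty_iff]
      intro x hxW hx
      have h2 := abs_lt.1 (key x hx)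
      have h3 := hZ i x hxW
      have h5 : δ / 4 * Z x ≤ Z x := by nlinarith [hδ.1, hδ.2]
      push Not at ht0
      linarith [h2.2]
    rw [h1, card_empty, Nat.cast_zero]
    positivity

theorem lin_forms (r : ℕ) (W : Fin r → Finset (List ℕ)) (Z : List ℕ → ℝ) (hZ : ∀ i, ∀ w ∈ W i, 0 < Z w) (μ : ℝ) (hμ : 0 ≤ μ)
    (δ : Fin r → ℝ) (hδ : ∀ i, 0 < δ i ∧ δ i ≤ 1)
    (hm : ∀ i, ∀ y : ℝ, 0 < y → (((W i).filter fun w => y ≤ Z w ∧ Z w ≤ (1 + δ i) * y).card : ℝ) ≤ μ * (W i).card)
    (s H : ℕ) (θ : Fin s → ℝ) (P : (Fin r → List ℕ) → Prop) [DecidablePred P]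
    (hP : ∀ w, P w → ∃ (c : Fin r → ℤ) (e : Fin s → ℤ), (∀ i, |c i| ≤ H) ∧ (∀ j, |e j| ≤ H) ∧
      ∃ i, c i ≠ 0 ∧ |∑ j, (c j : ℝ) * Z (w j) - ∑ j, (e j : ℝ) * θ j| < δ i / 4 * (|(c i : ℝ)| * Z (w i))) :
    (((Fintype.piFinset W).filter P).card : ℝ) ≤ μ * r * (2 * H + 1) ^ (r + s) * ∏ i, ((W i).card : ℝ) := by
  classical
  set Bc : Finset (Fin r → ℤ) := Fintype.piFinset fun _ => Icc (-(H : ℤ)) H with hBc
  set Be : Finset (Fin s → ℤ) := Fintype.piFinset fun _ => Icc (-(H : ℤ)) H with hBe
  have hcard : (Icc (-(H : ℤ)) H).card = 2 * H + 1 := by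
    rw [Int.card_Icc]
    omega
  have hBcc : Bc.card = (2 * H + 1) ^ r := by
    rw [hBc, Fintype.card_piFinset, prod_const, card_univ, Fintype.card_fin, hcard]
  have hBec : Be.card = (2 * H + 1) ^ s := by
    rw [hBe, Fintype.card_piFinset, prod_const, card_univ, Fintype.card_fin, hcard]
  set T : Finset (((Fin r → ℤ) × (Fin s → ℤ)) × Fin r) :=
    ((Bc ×ˢ Be) ×ˢ (univ : Finset (Fin r))).filter fun q => q.1.1 q.2 ≠ 0 with hT
  have hTc : T.card ≤ (2 * H + 1) ^ (r + s) * r := by
    refine (card_filter_le _ _).trans (le_of_eq ?_)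
    rw [card_product, card_product, hBcc, hBec, card_univ, Fintype.card_fin, pow_add]
  have hsub : (Fintype.piFinset W).filter P ⊆
      T.biUnion fun q => (Fintype.piFinset W).filter fun w =>
        |∑ j, (q.1.1 j : ℝ) * Z (w j) - ∑ j, (q.1.2 j : ℝ) * θ j| <
          δ q.2 / 4 * (|(q.1.1 q.2 : ℝ)| * Z (w q.2)) := by
    intro w hw
    rw [mem_filter] at hw
    obtain ⟨c, e, h2, h3, i, h4, h5⟩ := hP w hw.2
    rw [mem_biUnion]
    refine ⟨((c, e), i), ?_, ?_⟩
    · rw [hT, mem_filter, mem_product, mem_product, hBc, hBe, Fintype.mem_piFinset, Fintype.mem_piFinset]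
      exact ⟨⟨⟨fun i => mem_Icc.2 (abs_le.1 (h2 i)), fun j => mem_Icc.2 (abs_le.1 (h3 j))⟩, mem_univ _⟩, h4⟩
    · rw [mem_filter]
      exact ⟨hw.1, h5⟩
  have hpr : 0 ≤ μ * ∏ j, ((W j).card : ℝ) :=
    mul_nonneg hμ (prod_nonneg fun j _ => Nat.cast_nonneg _)
  have h1 : ∀ q ∈ T, (((Fintype.piFinset W).filter fun w =>
        |∑ j, (q.1.1 j : ℝ) * Z (w j) - ∑ j, (q.1.2 j : ℝ) * θ j| <
          δ q.2 / 4 * (|(q.1.1 q.2 : ℝ)| * Z (w q.2))).card : ℝ) ≤ μ * ∏ j, ((W j).card : ℝ) := by
    intro q hq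
    rw [hT, mem_filter] at hq
    exact one_form r W Z hZ μ hμ q.2 (δ q.2) (hδ q.2) (hm q.2) q.1.1 hq.2 _
  calc (((Fintype.piFinset W).filter P).card : ℝ)
      ≤ ((T.biUnion fun q => (Fintype.piFinset W).filter fun w =>
        |∑ j, (q.1.1 j : ℝ) * Z (w j) - ∑ j, (q.1.2 j : ℝ) * θ j| <
          δ q.2 / 4 * (|(q.1.1 q.2 : ℝ)| * Z (w q.2))).card : ℝ) := by
        exact_mod_cast card_le_card hsub
    _ ≤ ((∑ q ∈ T, ((Fintype.piFinset W).filter fun w =>
        |∑ j, (q.1.1 j : ℝ) * Z (w j) - ∑ j, (q.1.2 j : ℝ) * θ j| <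
          δ q.2 / 4 * (|(q.1.1 q.2 : ℝ)| * Z (w q.2))).card : ℕ) : ℝ) := by
        exact_mod_cast card_biUnion_le
    _ = ∑ q ∈ T, (((Fintype.piFinset W).filter fun w =>
        |∑ j, (q.1.1 j : ℝ) * Z (w j) - ∑ j, (q.1.2 j : ℝ) * θ j| <
          δ q.2 / 4 * (|(q.1.1 q.2 : ℝ)| * Z (w q.2))).card : ℝ) := by push_cast; rfl
    _ ≤ ∑ _q ∈ T, μ * ∏ j, ((W j).card : ℝ) := sum_le_sum h1
    _ = (T.card : ℝ) * (μ * ∏ j, ((W j).card : ℝ)) := by
        rw [sum_const, nsmul_eq_mul]
    _ ≤ (((2 * H + 1) ^ (r + s) * r : ℕ) : ℝ) * (μ * ∏ j, ((W j).card : ℝ)) := by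
        refine mul_le_mul_of_nonneg_right ?_ hpr
        exact_mod_cast hTc
    _ = μ * r * (2 * H + 1) ^ (r + s) * ∏ i, ((W i).card : ℝ) := by
        push_cast
        ring

/-- polynomials: zeros with multiplicities -/
lemma pol_zero' {α : Type*} [DecidableEq α] (Z : α → ℝ) (μ : ℝ) (hμ : 0 ≤ μ) (D : ℕ) :
    ∀ (r : ℕ) (W : Fin r → Finset α)
    (_ : ∀ i, ∀ y : ℝ, (((W i).filter fun w => Z w = y).card : ℝ) ≤ μ * (W i).card)
    (Q : MvPolynomial (Fin r) ℝ) (_ : Q ≠ 0) (_ : ∀ i, Q.degreeOf i ≤ D),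
    (((Fintype.piFinset W).filter fun w => MvPolynomial.eval (fun i => Z (w i)) Q = 0).card : ℝ) ≤
      r * D * μ * ∏ i, ((W i).card : ℝ) := by
  classical
  intro r
  induction r with
  | zero =>
    intro W _ Q hQ _
    have h1 : ((Fintype.piFinset W).filter fun w => MvPolynomial.eval (fun i => Z (w i)) Q = 0) = ∅ := by
      rw [filter_eq_empty_iff]
      intro w _ hw
      rw [Q.eq_C_of_isEmpty] at hw hQ
      rw [MvPolynomial.eval_C] at hw
      rw [hw] at hQ
      exact hQ (map_zero _)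
    rw [h1]
    simp
  | succ r ih =>
    intro W hm Q hQ hD
    set Q' : Polynomial (MvPolynomial (Fin r) ℝ) := MvPolynomial.finSuccEquiv ℝ r Q with hQ'
    have hQ'0 : Q' ≠ 0 := EmbeddingLike.map_ne_zero_iff.2 hQ
    set q := Q'.leadingCoeff with hq
    have hq0 : q ≠ 0 := by simpa [hq] using hQ'0
    -- the degrees
    have hqD : ∀ i, q.degreeOf i ≤ D := by
      intro i
      exact (MvPolynomial.degreeOf_coeff_finSuccEquiv Q i Q'.natDegree).trans (hD i.succ)
    have hnD : Q'.natDegree ≤ D := by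
      rw [hQ', MvPolynomial.natDegree_finSuccEquiv]
      exact hD 0
    set B := (Fintype.piFinset W).filter fun w => MvPolynomial.eval (fun i => Z (w i)) Q = 0 with hB
    set B1 := (Fintype.piFinset W).filter fun w =>
      MvPolynomial.eval (fun i => Z (Fin.tail w i)) q = 0 with hB1
    set B2 := (Fintype.piFinset W).filter fun w =>
      MvPolynomial.eval (fun i => Z (w i)) Q = 0 ∧ MvPolynomial.eval (fun i => Z (Fin.tail w i)) q ≠ 0
      with hB2
    have hsub : B ⊆ B1 ∪ B2 := by
      intro w hw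
      rw [hB, mem_filter] at hw
      rw [mem_union, hB1, hB2, mem_filter, mem_filter]
      by_cases h : MvPolynomial.eval (fun i => Z (Fin.tail w i)) q = 0
      · exact Or.inl ⟨hw.1, h⟩
      · exact Or.inr ⟨hw.1, hw.2, h⟩
    have h1 : (B1.card : ℝ) ≤ r * D * μ * ∏ i, ((W i).card : ℝ) := by
      have h2 := Finset.card_consEquiv_filter_piFinset W
        (fun w => MvPolynomial.eval (fun i => Z (w i)) q = 0)
      have h3 : (B1.card : ℝ) = (W 0).card *
          (((Fintype.piFinset (Fin.tail W)).filter fun w =>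
            MvPolynomial.eval (fun i => Z (w i)) q = 0).card : ℝ) := by
        rw [hB1]
        exact_mod_cast h2
      have h4 := ih (Fin.tail W) (fun i y => hm i.succ y) q hq0 hqD
      rw [h3, Fin.prod_univ_succ]
      calc ((W 0).card : ℝ) * _ ≤ (W 0).card * (r * D * μ * ∏ i, ((Fin.tail W i).card : ℝ)) :=
            mul_le_mul_of_nonneg_left h4 (Nat.cast_nonneg _)
        _ = _ := by
            simp only [Fin.tail]
            ring
    have h2 : (B2.card : ℝ) ≤ (D * μ) * ∏ i, ((W i).card : ℝ) := by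
      rw [hB2]
      refine fib_bound W 0 _ (D * μ) fun u _ => ?_
      set v : Fin r → ℝ := fun i => Z (Fin.tail u i) with hv
      have htail : ∀ x, (fun i => Z (Fin.tail (Function.update u 0 x) i)) = v := by
        intro x
        funext i
        rw [hv, Fin.tail_update_zero]
      by_cases hqv : MvPolynomial.eval v q = 0
      · have h3 : ((W 0).filter fun x => MvPolynomial.eval (fun i => Z (Function.update u 0 x i)) Q = 0 ∧
            MvPolynomial.eval (fun i => Z (Fin.tail (Function.update u 0 x) i)) q ≠ 0) = ∅ := by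
          rw [filter_eq_empty_iff]
          intro x _ hx
          rw [htail x] at hx
          exact hx.2 hqv
        rw [h3, card_empty, Nat.cast_zero]
        positivity
      · set R : Polynomial ℝ := Q'.map (MvPolynomial.eval v) with hR
        have hR0 : R ≠ 0 := by
          intro h
          apply hqv
          have h4 : R.coeff Q'.natDegree = 0 := by rw [h, Polynomial.coeff_zero]
          rw [hR, Polynomial.coeff_map] at h4
          exact h4
        have hRd : R.natDegree ≤ D := (Polynomial.natDegree_map_le).trans hnD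
        have h3 : ((W 0).filter fun x => MvPolynomial.eval (fun i => Z (Function.update u 0 x i)) Q = 0 ∧
            MvPolynomial.eval (fun i => Z (Fin.tail (Function.update u 0 x) i)) q ≠ 0) ⊆
            R.roots.toFinset.biUnion fun y => (W 0).filter fun x => Z x = y := by
          intro x hx
          rw [mem_filter] at hx
          rw [mem_biUnion]
          refine ⟨Z x, ?_, ?_⟩
          · rw [Multiset.mem_toFinset, Polynomial.mem_roots hR0]
            have h4 : (fun i => Z (Function.update u 0 x i)) = Fin.cons (Z x) v := by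
              funext i
              refine Fin.cases ?_ (fun i => ?_) i
              · simp
              · simp [hv, Fin.tail]
            have h5 := hx.2.1
            rw [h4, MvPolynomial.eval_eq_eval_mv_eval'] at h5
            exact h5
          · rw [mem_filter]
            exact ⟨hx.1, rfl⟩
        calc ((((W 0).filter fun x => MvPolynomial.eval (fun i => Z (Function.update u 0 x i)) Q = 0 ∧
            MvPolynomial.eval (fun i => Z (Fin.tail (Function.update u 0 x) i)) q ≠ 0).card : ℕ) : ℝ)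
            ≤ ((R.roots.toFinset.biUnion fun y => (W 0).filter fun x => Z x = y).card : ℝ) := by
              exact_mod_cast card_le_card h3
          _ ≤ ((∑ y ∈ R.roots.toFinset, ((W 0).filter fun x => Z x = y).card : ℕ) : ℝ) := by
              exact_mod_cast card_biUnion_le
          _ = ∑ y ∈ R.roots.toFinset, (((W 0).filter fun x => Z x = y).card : ℝ) := by push_cast; rfl
          _ ≤ ∑ _y ∈ R.roots.toFinset, μ * (W 0).card := sum_le_sum fun y _ => hm 0 y
          _ = (R.roots.toFinset.card : ℝ) * (μ * (W 0).card) := by rw [sum_const, nsmul_eq_mul]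
          _ ≤ (D : ℝ) * (μ * (W 0).card) := by
              refine mul_le_mul_of_nonneg_right ?_ (mul_nonneg hμ (Nat.cast_nonneg _))
              have h6 : R.roots.toFinset.card ≤ D :=
                (R.roots.toFinset_card_le.trans R.card_roots').trans hRd
              exact_mod_cast h6
          _ = D * μ * (W 0).card := by ring
    have h3 : (B.card : ℝ) ≤ B1.card + B2.card := by
      have := (card_le_card hsub).trans (card_union_le B1 B2)
      exact_mod_cast this
    calc (B.card : ℝ) ≤ B1.card + B2.card := h3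
      _ ≤ r * D * μ * ∏ i, ((W i).card : ℝ) + (D * μ) * ∏ i, ((W i).card : ℝ) := add_le_add h1 h2
      _ = ((r + 1 : ℕ) : ℝ) * D * μ * ∏ i, ((W i).card : ℝ) := by push_cast; ring

open Classical in
theorem pol_zero (r : ℕ) (W : Fin r → Finset (List ℕ)) (Z : List ℕ → ℝ) (μ : ℝ) (hμ : 0 ≤ μ)
    (hm : ∀ i, ∀ y : ℝ, (((W i).filter fun w => Z w = y).card : ℝ) ≤ μ * (W i).card) (D : ℕ)
    (Q : MvPolynomial (Fin r) ℝ) (hQ : Q ≠ 0) (hD : ∀ i, Q.degreeOf i ≤ D) :
    (((Fintype.piFinset W).filter fun w => MvPolynomial.eval (fun i => Z (w i)) Q = 0).card : ℝ) ≤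
      r * D * μ * ∏ i, ((W i).card : ℝ) := by
  have h := pol_zero' Z μ hμ D r W (fun i y => by convert hm i y) Q hQ hD
  convert h

end Pool.Agent.L5helper45.HW
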