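import Mathlib
import Pool.Agent.L5helper45.HW.Win
import Pool.Agent.L5helper45.HW.Orb
import Pool.Agent.L5helper15.HW.Par
import Pool.Agent.L5helper85.HW.Cnt

/-!
# Hoffman words: small balls
-/

set_option autoImplicit false

namespace Pool.Agent.L5helper45.HW

open Pool.Agent.H447R2.MZ (val)
open Pool.Agent.L5helper5.SP (L23 Wd mem_Wd card_Wd)
open Pool.Agent.L5helper85.HW (bad_count)

lemma L23_rev {w : List ℕ} : L23 w.reverse ↔ L23 w := by
  constructor
  · intro h x hx; exact h x (by simpa using hx)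
  · intro h x hx; exact h x (by simpa using hx)

lemma mem_Wd_rev {k : ℕ} {w : List ℕ} : w.reverse ∈ Wd k ↔ w ∈ Wd k := by
  rw [mem_Wd, mem_Wd, L23_rev, List.sum_reverse]

lemma sum_le_three {w : List ℕ} (h : L23 w) : w.sum ≤ 3 * w.length := by
  induction w with
  | nil => simp
  | cons a w ih =>
    have h1 := ih fun x hx => h x (by simp [hx])
    have h2 := h a (by simp)
    rw [List.sum_cons, List.length_cons]
    omega

lemma XY_ne (i : ℕ) : (XY i).1 ≠ (XY i).2 := by
  induction i with
  | zero => simp [XY]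
  | succ i ih =>
    rw [XY]
    simp only
    intro h
    have h1 := (List.append_inj h (by rw [(XY_len i).1, (XY_len i).2])).1
    exact ih h1

/-- **small balls**: for every `A` there are `B`, `C` such that the values of at most `C N / k ^ A` words of weight `k` lie in an
interval `[y, (1 + k ^ (- B)) y]` -/
theorem few (A : ℕ) : ∃ (B : ℕ) (C : ℝ), 0 < C ∧ ∀ k : ℕ, 1 ≤ k → ∀ y : ℝ, 0 < y →
    (((Wd k).filter fun w => y ≤ val w ∧ val w ≤ (1 + 1 / (k : ℝ) ^ B) * y).card : ℝ) ≤ C / (k : ℝ) ^ A * (Wd k).card := by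
  classical
  obtain ⟨I, hI⟩ : ∃ I : ℕ, I + 1 = 700 * (A + 1) := ⟨700 * (A + 1) - 1, by omega⟩
  obtain ⟨c, J, hc, hJ, hwin⟩ := window I
  set s := 2 ^ (I + 1) with hs
  have hs1 : 1 ≤ s := Nat.one_le_two_pow
  set X := (XY I).1.reverse with hX
  set Y := (XY I).2.reverse with hY
  have hXl : X.length = s := by rw [hX, List.length_reverse]; exact (XY_len I).1
  have hYl : Y.length = s := by rw [hY, List.length_reverse]; exact (XY_len I).2
  have hX23 : L23 X := L23_rev.2 (XY_L23 I).1
  have hY23 : L23 Y := L23_rev.2 (XY_L23 I).2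
  have hsum : X.sum = Y.sum := by rw [hX, hY, List.sum_reverse, List.sum_reverse, (XY_sum I).1, (XY_sum I).2]
  have hXY : X ≠ Y := fun h => XY_ne I (by rw [hX, hY, List.reverse_inj] at h; exact h)
  have hX0 : X ≠ [] := by
    intro h
    rw [h] at hXl
    simp at hXl
    omega
  obtain ⟨cb, hcb, hbad⟩ := bad_count X hX23 hX0
  obtain ⟨K, B, C, hC, hpar⟩ := params I J c cb hc hcb s hs1 A hI.ge
  refine ⟨B, C + ((max K 2 : ℕ) : ℝ) ^ A, by positivity, fun k hk y hy => ?_⟩
  have hk0 : (0 : ℝ) < k := by exact_mod_cast hk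
  have hkA : (0 : ℝ) < (k : ℝ) ^ A := by positivity
  have hN0 : (0 : ℝ) ≤ (Wd k).card := Nat.cast_nonneg _
  rcases Nat.lt_or_ge k (max K 2) with hlt | hge
  · -- small weights
    have h1 : (((Wd k).filter fun w => y ≤ val w ∧ val w ≤ (1 + 1 / (k : ℝ) ^ B) * y).card : ℝ) ≤ (Wd k).card := by
      exact_mod_cast Finset.card_filter_le _ _
    refine h1.trans (le_mul_of_one_le_left hN0 ?_)
    rw [one_le_div hkA]
    have h2 : (k : ℝ) ^ A ≤ ((max K 2 : ℕ) : ℝ) ^ A := pow_le_pow_left₀ hk0.le (by exact_mod_cast hlt.le) _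
    linarith
  obtain ⟨q, n, a, lo, hi, ha, hak, hpos, hgap, hfin⟩ := hpar k ((le_max_left _ _).trans hge)
  have hk2 : 2 ≤ k := (le_max_right _ _).trans hge
  set L : List ℕ → ℝ := fun w => Real.log (val w.reverse) with hL
  set ε : ℝ := 1 / (k : ℝ) ^ B with hε
  have hε0 : 0 < ε := by positivity
  have hsw := swaps X Y (hXl.trans hYl.symm) hsum hXY hX23 hY23 q n k a (by rw [hXl]; exact ha) (by rw [hXl]; exact hak) L lo hi
    (fun i hi' t ht u v hu hv huv hk' => by
      rw [hXl] at huv
      obtain ⟨p1, p2, p3, p4⟩ := hpos i hi' t ht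
      have hvl : u.reverse.length ^ 6 ≤ v.reverse.length := by
        rw [List.length_reverse, List.length_reverse, huv]
        rw [List.sum_append, List.sum_append] at hk'
        have h1 := sum_le_three hu
        have h2 := sum_le_three hX23
        have h3 := sum_le_three hv
        rw [hXl] at h2
        rw [huv] at h1
        omega
      have h1 := hwin v.reverse u.reverse (L23_rev.2 hv) (L23_rev.2 hu) (by rw [List.length_reverse, huv]; exact p1) hvl
      rw [List.length_reverse, huv] at h1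
      have e1 : (u ++ X ++ v).reverse = v.reverse ++ ((XY I).1 ++ u.reverse) := by
        rw [List.reverse_append, List.reverse_append, hX, List.reverse_reverse]
      have e2 : (u ++ Y ++ v).reverse = v.reverse ++ ((XY I).2 ++ u.reverse) := by
        rw [List.reverse_append, List.reverse_append, hY, List.reverse_reverse]
      simp only [hL, e1, e2]
      exact ⟨p3.trans h1.1, h1.2.trans p4⟩) ε hgap (Real.log y)
  -- the sets
  set G := (Wd k).filter fun w => (∀ i < q, ∃ t < n, Hit X Y w (a i + t * X.length)) ∧ Real.log y ≤ L w ∧ L w ≤ Real.log y + ε with hG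
  set Bd : ℕ → Finset (List ℕ) := fun i => (Wd k).filter fun w => ∀ t < n, (w.drop (a i + t * X.length)).take X.length ≠ X with hBd
  have hsub : ((Wd k).filter fun w => y ≤ val w ∧ val w ≤ (1 + ε) * y).image List.reverse ⊆
      G ∪ (Finset.range q).biUnion Bd := by
    intro w hw
    rw [Finset.mem_image] at hw
    obtain ⟨w', hw', rfl⟩ := hw
    rw [Finset.mem_filter] at hw'
    obtain ⟨h1, h2, h3⟩ := hw'
    have hmem : w'.reverse ∈ Wd k := mem_Wd_rev.2 h1
    rw [Finset.mem_union, Finset.mem_biUnion]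
    by_cases h4 : ∀ i < q, ∃ t < n, Hit X Y w'.reverse (a i + t * X.length)
    · left
      rw [hG, Finset.mem_filter]
      refine ⟨hmem, h4, ?_, ?_⟩
      · simp only [hL, List.reverse_reverse]
        exact Real.log_le_log hy h2
      · simp only [hL, List.reverse_reverse]
        have h5 : 0 < val w' := lt_of_lt_of_le hy h2
        refine (Real.log_le_log h5 h3).trans ?_
        rw [Real.log_mul (by positivity) hy.ne']
        have h6 := Real.log_le_sub_one_of_pos (show 0 < 1 + ε by positivity)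
        linarith
    · right
      push Not at h4
      obtain ⟨i, hi', h5⟩ := h4
      refine ⟨i, Finset.mem_range.2 hi', ?_⟩
      rw [hBd]
      simp only [Finset.mem_filter]
      exact ⟨hmem, fun t ht h6 => h5 t ht (Or.inl h6)⟩
  have hcard : ((Wd k).filter fun w => y ≤ val w ∧ val w ≤ (1 + ε) * y).card ≤ G.card + ∑ i ∈ Finset.range q, (Bd i).card := by
    rw [← Finset.card_image_of_injective _ List.reverse_injective]
    exact (Finset.card_le_card hsub).trans ((Finset.card_union_le _ _).trans (Nat.add_le_add_left Finset.card_biUnion_le _))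
  have hGc : (G.card : ℝ) ≤ 1 / 2 ^ q * (Wd k).card := by
    rw [one_div, ← div_eq_inv_mul, le_div_iff₀ (by positivity)]
    exact_mod_cast hsw
  have hBc : ∀ i ∈ Finset.range q, ((Bd i).card : ℝ) ≤ 4 * Real.exp (-(cb * n)) * (Wd k).card := by
    intro i hi'
    exact hbad (a i) n k (by rw [hXl]; exact hak i (Finset.mem_range.1 hi')) hk2
  calc (((Wd k).filter fun w => y ≤ val w ∧ val w ≤ (1 + ε) * y).card : ℝ)
      ≤ ((G.card + ∑ i ∈ Finset.range q, (Bd i).card : ℕ) : ℝ) := by exact_mod_cast hcard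
    _ = (G.card : ℝ) + ∑ i ∈ Finset.range q, ((Bd i).card : ℝ) := by push_cast; rfl
    _ ≤ 1 / 2 ^ q * (Wd k).card + ∑ i ∈ Finset.range q, 4 * Real.exp (-(cb * n)) * (Wd k).card :=
        add_le_add hGc (Finset.sum_le_sum hBc)
    _ = (1 / (2 : ℝ) ^ q + 4 * q * Real.exp (-(cb * n))) * (Wd k).card := by
        rw [Finset.sum_const, Finset.card_range, nsmul_eq_mul]
        ring
    _ ≤ C / (k : ℝ) ^ A * (Wd k).card := mul_le_mul_of_nonneg_right hfin hN0
    _ ≤ (C + ((max K 2 : ℕ) : ℝ) ^ A) / (k : ℝ) ^ A * (Wd k).card := by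
        refine mul_le_mul_of_nonneg_right (div_le_div_of_nonneg_right ?_ hkA.le) hN0
        have : (0 : ℝ) ≤ ((max K 2 : ℕ) : ℝ) ^ A := by positivity
        linarith

end Pool.Agent.L5helper45.HW
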